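import Pool.Agent.Q216.ZD.Base
import Pool.Agent.Q124.ZD.Init
import Pool.Agent.Q26.ZD.Eq

set_option autoImplicit false

/-!
Project ZD, statement `S_SEL`: the selection of markers is semi-decidable.  The certificate is a
finite table of points with their colours and the information which of them are markers.
-/

namespace Pool.Agent.Q216.ZD.Sel

open Encodable Pool.Agent.Helper227 Pool.Agent.H548R2.Post Pool.Agent.Q216.ZD
open Nat.Partrec (Code)
open Pool.Agent.Q124.ZD (primrec_WL pre_eq_iff)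
open Pool.Agent.Q26.ZD (s1_eval)

/-- the number `x.2.2.2` is the colour of the point given by the word `x.2.2.1` -/
def Cl (L : ℕ) (T : ℕ → R → R) (Y : R) (x : Code × ℕ × List ℕ × ℕ) : Prop :=
  ∃ σ : List Bool, x.2.2.2 = encode σ ∧
    (∀ i < σ.length, Wd L x.2.2.1 ∧ act T x.2.2.1 Y i = σ.getD i false) ∧
    (∀ w ∈ WL L x.2.1, 1 ∈ x.1.eval (encode w) ∨ (0 ∈ x.1.eval (encode w) ∧
      ∃ i ∈ List.range σ.length, Wd L (w ++ x.2.2.1) ∧
        act T (w ++ x.2.2.1) Y i = !(σ.getD i false))) ∧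
    (σ.length = 0 ∨ ∃ w ∈ WL L x.2.1, 0 ∈ x.1.eval (encode w) ∧
      ∀ i < σ.length - 1, Wd L (w ++ x.2.2.1) ∧ act T (w ++ x.2.2.1) Y i = σ.getD i false)

section
variable {L : ℕ} {T : ℕ → R → R} {ps : List Code}

/-- the second condition -/
def C2 (L : ℕ) (T : ℕ → R → R) (Y : R) (x : (Code × ℕ × List ℕ × ℕ) × List Bool) : Prop :=
  ∀ i < x.2.length, Wd L x.1.2.2.1 ∧ act T x.1.2.2.1 Y i = x.2.getD i false

/-- the third condition, inner part -/
def C3 (L : ℕ) (T : ℕ → R → R) (Y : R) (x : ((Code × ℕ × List ℕ × ℕ) × List Bool) × List ℕ) :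
    Prop :=
  ∃ i ∈ List.range x.1.2.length, Wd L (x.2 ++ x.1.1.2.2.1) ∧
    act T (x.2 ++ x.1.1.2.2.1) Y i = !(x.1.2.getD i false)

/-- the fourth condition, inner part -/
def C4 (L : ℕ) (T : ℕ → R → R) (Y : R) (x : ((Code × ℕ × List ℕ × ℕ) × List Bool) × List ℕ) :
    Prop :=
  ∀ i < x.1.2.length - 1, Wd L (x.2 ++ x.1.1.2.2.1) ∧
    act T (x.2 ++ x.1.1.2.2.1) Y i = x.1.2.getD i false

theorem us_C2 (h1 : S_ACT) (hA : Acts ps L T) : US (C2 L T) := by
  have hact := h1 ps L T hA
  have pf : Primrec fun x : ((Code × ℕ × List ℕ × ℕ) × List Bool) × ℕ =>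
      (x.1.1.2.2.1, x.2, x.1.2.getD x.2 false) := by
    have q1 : Primrec fun x : ((Code × ℕ × List ℕ × ℕ) × List Bool) × ℕ => x.1.1.2.2.1 :=
      Primrec.fst.comp (Primrec.snd.comp (Primrec.snd.comp (Primrec.fst.comp Primrec.fst)))
    have q2 : Primrec fun x : ((Code × ℕ × List ℕ × ℕ) × List Bool) × ℕ => x.1.2 :=
      Primrec.snd.comp Primrec.fst
    exact q1.pair (Primrec.snd.pair ((Primrec.list_getD false).comp q2 Primrec.snd))
  exact US.all_lt (α := (Code × ℕ × List ℕ × ℕ) × List Bool)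
      (P := fun Y x i => Wd L x.1.2.2.1 ∧ act T x.1.2.2.1 Y i = x.2.getD i false)
      (hact.comp pf) (Primrec.list_length.comp Primrec.snd)

theorem us_C3 (h1 : S_ACT) (hA : Acts ps L T) : US (C3 L T) := by
  have hact := h1 ps L T hA
  have pf : Primrec fun x : (((Code × ℕ × List ℕ × ℕ) × List Bool) × List ℕ) × ℕ =>
      (x.1.2 ++ x.1.1.1.2.2.1, x.2, !(x.1.1.2.getD x.2 false)) := by
    have q1 : Primrec fun x : (((Code × ℕ × List ℕ × ℕ) × List Bool) × List ℕ) × ℕ =>
        x.1.1.1.2.2.1 :=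
      Primrec.fst.comp (Primrec.snd.comp (Primrec.snd.comp (Primrec.fst.comp (Primrec.fst.comp
        Primrec.fst))))
    have q2 : Primrec fun x : (((Code × ℕ × List ℕ × ℕ) × List Bool) × List ℕ) × ℕ => x.1.1.2 :=
      Primrec.snd.comp (Primrec.fst.comp Primrec.fst)
    have q3 : Primrec fun x : (((Code × ℕ × List ℕ × ℕ) × List Bool) × List ℕ) × ℕ => x.1.2 :=
      Primrec.snd.comp Primrec.fst
    exact (Primrec.list_append.comp q3 q1).pair (Primrec.snd.pair
      (Primrec.not.comp ((Primrec.list_getD false).comp q2 Primrec.snd)))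
  exact US.ex_mem (α := ((Code × ℕ × List ℕ × ℕ) × List Bool) × List ℕ) (β := ℕ)
      (P := fun Y x i => Wd L (x.2 ++ x.1.1.2.2.1) ∧
        act T (x.2 ++ x.1.1.2.2.1) Y i = !(x.1.2.getD i false))
      (hact.comp pf) (Primrec.list_range.comp (Primrec.list_length.comp (Primrec.snd.comp
        Primrec.fst)))

theorem us_C4 (h1 : S_ACT) (hA : Acts ps L T) : US (C4 L T) := by
  have hact := h1 ps L T hA
  have pf : Primrec fun x : (((Code × ℕ × List ℕ × ℕ) × List Bool) × List ℕ) × ℕ =>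
      (x.1.2 ++ x.1.1.1.2.2.1, x.2, x.1.1.2.getD x.2 false) := by
    have q1 : Primrec fun x : (((Code × ℕ × List ℕ × ℕ) × List Bool) × List ℕ) × ℕ =>
        x.1.1.1.2.2.1 :=
      Primrec.fst.comp (Primrec.snd.comp (Primrec.snd.comp (Primrec.fst.comp (Primrec.fst.comp
        Primrec.fst))))
    have q2 : Primrec fun x : (((Code × ℕ × List ℕ × ℕ) × List Bool) × List ℕ) × ℕ => x.1.1.2 :=
      Primrec.snd.comp (Primrec.fst.comp Primrec.fst)
    have q3 : Primrec fun x : (((Code × ℕ × List ℕ × ℕ) × List Bool) × List ℕ) × ℕ => x.1.2 :=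
      Primrec.snd.comp Primrec.fst
    exact (Primrec.list_append.comp q3 q1).pair (Primrec.snd.pair
      ((Primrec.list_getD false).comp q2 Primrec.snd))
  exact US.all_lt (α := ((Code × ℕ × List ℕ × ℕ) × List Bool) × List ℕ)
      (P := fun Y x i => Wd L (x.2 ++ x.1.1.2.2.1) ∧
        act T (x.2 ++ x.1.1.2.2.1) Y i = x.1.2.getD i false)
      (hact.comp pf) (Primrec.nat_sub.comp (Primrec.list_length.comp (Primrec.snd.comp
        Primrec.fst)) (Primrec.const 1))

theorem s1_ev1 : S1 fun x : Code × List ℕ × ℕ => x.2.2 ∈ x.1.eval (encode x.2.1) := by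
  have pe : Primrec fun x : Code × List ℕ × ℕ => encode x.2.1 :=
    Primrec.encode.comp (Primrec.fst.comp Primrec.snd)
  have h := s1_eval.comp (Primrec.fst.pair (pe.pair (Primrec.snd.comp Primrec.snd)))
  exact h

theorem us_ev (v : ℕ) : US fun (_ : R) (x : ((Code × ℕ × List ℕ × ℕ) × List Bool) × List ℕ) =>
    v ∈ x.1.1.1.eval (encode x.2) := by
  have pa : Primrec fun x : ((Code × ℕ × List ℕ × ℕ) × List Bool) × List ℕ => x.1.1.1 :=
    Primrec.fst.comp (Primrec.fst.comp Primrec.fst)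
  have h := s1_ev1.comp (pa.pair (Primrec.snd.pair (Primrec.const v)))
  have h2 : US fun (_ : R) (x : ((Code × ℕ × List ℕ × ℕ) × List Bool) × List ℕ) =>
    (x.1.1.1, x.2, v).2.2 ∈ (x.1.1.1, x.2, v).1.eval (encode (x.1.1.1, x.2, v).2.1) := US.of_s1 h
  exact h2

theorem us_cl (h1 : S_ACT) (hA : Acts ps L T) : US (Cl L T) := by
  have pa : Primrec fun x : (Code × ℕ × List ℕ × ℕ) × List Bool => x.1.1 :=
    Primrec.fst.comp Primrec.fst
  have pr : Primrec fun x : (Code × ℕ × List ℕ × ℕ) × List Bool => x.1.2.1 :=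
    Primrec.fst.comp (Primrec.snd.comp Primrec.fst)
  have pc : Primrec fun x : (Code × ℕ × List ℕ × ℕ) × List Bool => x.1.2.2.2 :=
    Primrec.snd.comp (Primrec.snd.comp (Primrec.snd.comp Primrec.fst))
  have ps' : Primrec fun x : (Code × ℕ × List ℕ × ℕ) × List Bool => x.2 := Primrec.snd
  have pl : Primrec fun x : (Code × ℕ × List ℕ × ℕ) × List Bool => x.2.length :=
    Primrec.list_length.comp ps'
  have pW : Primrec fun x : (Code × ℕ × List ℕ × ℕ) × List Bool => WL L x.1.2.1 :=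
    (primrec_WL L).comp pr
  have pe := us_ev
  have u1 : US fun (_ : R) (x : (Code × ℕ × List ℕ × ℕ) × List Bool) => x.1.2.2.2 = encode x.2 :=
    US.of_prim (Primrec.eq.comp pc (Primrec.encode.comp ps'))
  have u2 := us_C2 h1 hA
  have u3 : US fun Y (x : (Code × ℕ × List ℕ × ℕ) × List Bool) => ∀ w ∈ WL L x.1.2.1,
      1 ∈ x.1.1.eval (encode w) ∨ (0 ∈ x.1.1.eval (encode w) ∧ C3 L T Y (x, w)) :=
    US.all_mem (α := (Code × ℕ × List ℕ × ℕ) × List Bool) (β := List ℕ)
      (P := fun Y x w => 1 ∈ x.1.1.eval (encode w) ∨ (0 ∈ x.1.1.eval (encode w) ∧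
        C3 L T Y (x, w))) (US.or (pe 1) (US.and (pe 0) (us_C3 h1 hA))) pW
  have u4 : US fun Y (x : (Code × ℕ × List ℕ × ℕ) × List Bool) => ∃ w ∈ WL L x.1.2.1,
      0 ∈ x.1.1.eval (encode w) ∧ C4 L T Y (x, w) :=
    US.ex_mem (α := (Code × ℕ × List ℕ × ℕ) × List Bool) (β := List ℕ)
      (P := fun Y x w => 0 ∈ x.1.1.eval (encode w) ∧ C4 L T Y (x, w))
      (US.and (pe 0) (us_C4 h1 hA)) pW
  have u5 : US fun (_ : R) (x : (Code × ℕ × List ℕ × ℕ) × List Bool) => x.2.length = 0 :=
    US.of_prim (Primrec.eq.comp pl (Primrec.const 0))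
  exact US.ex (α := Code × ℕ × List ℕ × ℕ) (β := List Bool)
    (P := fun Y x σ => x.2.2.2 = encode σ ∧ C2 L T Y (x, σ) ∧
      (∀ w ∈ WL L x.2.1, 1 ∈ x.1.eval (encode w) ∨ (0 ∈ x.1.eval (encode w) ∧
        C3 L T Y ((x, σ), w))) ∧
      (σ.length = 0 ∨ ∃ w ∈ WL L x.2.1, 0 ∈ x.1.eval (encode w) ∧ C4 L T Y ((x, σ), w)))
    (US.and u1 (US.and u2 (US.and u3 (US.or u5 u4))))

theorem pre_le {X Z : R} {l m : ℕ} (hlm : l ≤ m) (h : pre X m = pre Z m) : pre X l = pre Z l := by
  have h1 : (pre X m).take l = (pre Z m).take l := by rw [h]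
  obtain ⟨k, rfl⟩ := Nat.exists_eq_add_of_le hlm
  have h2 : ∀ W : R, (pre W (l + k)).take l = pre W l := by
    intro W
    obtain ⟨ρ, hρ⟩ := pre_prefix W (Nat.le_add_right l k)
    rw [← hρ]
    have : (pre W l).length = l := length_pre _ _
    rw [List.take_append_of_le_length (by omega), List.take_of_length_le (by omega)]
  rwa [h2, h2] at h1

theorem cl_iff {a : Code} {Y : R} (hD : Dec L T a Y) {v : List ℕ} (hv : Wd L v) (r c : ℕ) :
    Cl L T Y (a, r, v, c) ↔ c = col L T r (act T v Y) := by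
  have h1 : ∀ w ∈ WL L r, (1 ∈ a.eval (encode w) ↔ act T w (act T v Y) = act T v Y) := by
    intro w hw
    rw [hD w v (mem_WL.1 hw).1 hv 1]
    by_cases hc : act T w (act T v Y) = act T v Y <;> simp [hc]
  have h0 : ∀ w ∈ WL L r, (0 ∈ a.eval (encode w) ↔ act T w (act T v Y) ≠ act T v Y) := by
    intro w hw
    rw [hD w v (mem_WL.1 hw).1 hv 0]
    by_cases hc : act T w (act T v Y) = act T v Y <;> simp [hc]
  have hwv : ∀ w ∈ WL L r, Wd L (w ++ v) := fun w hw => wd_append (mem_WL.1 hw).1 hv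
  constructor
  · rintro ⟨σ, h2, h3, h4, h5⟩
    simp only at h2 h3 h4 h5
    have h6 : pre (act T v Y) σ.length = σ := (pre_eq_iff _ _).2 fun i hi => (h3 i hi).2
    have h7 : σ.length ∈ {l | ∀ w ∈ WL L r, act T w (act T v Y) ≠ act T v Y →
        pre (act T w (act T v Y)) l ≠ pre (act T v Y) l} := by
      intro w hw hne he
      rw [h6] at he
      rcases h4 w hw with h8 | ⟨-, i, hi, -, h8⟩
      · exact hne ((h1 w hw).1 h8)
      · have h9 := (pre_eq_iff _ _).1 he i (List.mem_range.1 hi)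
        rw [act_append, h9] at h8
        revert h8
        cases σ.getD i false <;> simp
    have h8 : len L T r (act T v Y) = σ.length := by
      refine le_antisymm (Nat.sInf_le h7) ?_
      by_contra hc
      push Not at hc
      rcases h5 with h9 | ⟨w, hw, h9, h10⟩
      · omega
      · have h11 := len_spec (L := L) (T := T) r (act T v Y) w hw ((h0 w hw).1 h9)
        refine h11 (pre_le (m := σ.length - 1) (by omega) ?_)
        have h12 : (σ.take (σ.length - 1)).length = σ.length - 1 := by simp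
        have h13 : pre (act T v Y) (σ.length - 1) = σ.take (σ.length - 1) := by
          conv_lhs => rw [← h12]
          refine (pre_eq_iff _ _).2 fun i hi => ?_
          rw [h12] at hi
          rw [(h3 i (by omega)).2]
          simp only [List.getD_eq_getElem?_getD]
          rw [List.getElem?_take_of_lt hi]
        rw [h13]
        conv_lhs => rw [← h12]
        refine (pre_eq_iff _ _).2 fun i hi => ?_
        rw [h12] at hi
        rw [← act_append, (h10 i hi).2]
        simp only [List.getD_eq_getElem?_getD]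
        rw [List.getElem?_take_of_lt hi]
    rw [h2]
    unfold col
    rw [h8, h6]
  · rintro rfl
    refine ⟨pre (act T v Y) (len L T r (act T v Y)), rfl, ?_, ?_, ?_⟩
    · intro i hi
      exact ⟨hv, (pre_eq_iff _ _).1 (by rw [length_pre]) i hi⟩
    · intro w hw
      by_cases hc : act T w (act T v Y) = act T v Y
      · exact Or.inl ((h1 w hw).2 hc)
      · refine Or.inr ⟨(h0 w hw).2 hc, ?_⟩
        have h2 := len_spec (L := L) (T := T) r (act T v Y) w hw hc
        by_contra h3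
        push Not at h3
        apply h2
        have h4 : pre (act T w (act T v Y)) (pre (act T v Y) (len L T r (act T v Y))).length =
            pre (act T v Y) (len L T r (act T v Y)) := by
          refine (pre_eq_iff _ _).2 fun i hi => ?_
          have h5 := h3 i (List.mem_range.2 hi) (hwv w hw)
          simp only [act_append] at h5
          revert h5
          cases act T w (act T v Y) i <;>
            cases (pre (act T v Y) (len L T r (act T v Y))).getD i false <;> simp
        rwa [length_pre] at h4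
    · simp only [length_pre]
      by_cases h2 : len L T r (act T v Y) = 0
      · exact Or.inl h2
      · right
        have h3 : len L T r (act T v Y) - 1 ∉ {l | ∀ w ∈ WL L r,
            act T w (act T v Y) ≠ act T v Y →
            pre (act T w (act T v Y)) l ≠ pre (act T v Y) l} := by
          apply Nat.notMem_of_lt_sInf
          show _ < len L T r (act T v Y)
          omega
        simp only [Set.mem_ofPred_eq] at h3
        push Not at h3
        obtain ⟨w, hw, h4, h5⟩ := h3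
        refine ⟨w, hw, (h0 w hw).2 h4, fun i hi => ⟨hwv w hw, ?_⟩⟩
        have h6 : (pre (act T w (act T v Y)) (len L T r (act T v Y) - 1))[i]? =
            (pre (act T v Y) (len L T r (act T v Y) - 1))[i]? := by rw [h5]
        rw [pre_getElem? _ _ _ (by omega), pre_getElem? _ _ _ (by omega)] at h6
        rw [act_append, Option.some.inj h6, List.getD_eq_getElem?_getD,
          pre_getElem? _ _ _ (by omega)]
        rfl

/-- the local condition for an entry of a table: word, colour, marker or not -/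
def Lc (L : ℕ) (T : ℕ → R → R) (Y : R) (a : Code) (r : ℕ) (t : List (List ℕ × ℕ × Bool))
    (x : List ℕ × ℕ × Bool) : Prop :=
  (Wd L x.1 ∧ Cl L T Y (a, r, x.1, x.2.1)) ∧
    ((x.2.2 = true ∧ ∀ w ∈ WL L r, ∃ c, Cl L T Y (a, r, w ++ x.1, c) ∧
        (x.2.1 ≤ c ∨ (w ++ x.1, c, false) ∈ t)) ∨
      (x.2.2 = false ∧ ∃ w ∈ WL L r, ∃ c, c < x.2.1 ∧ (w ++ x.1, c, true) ∈ t))

/-- the table is correct -/
def Ok (L : ℕ) (T : ℕ → R → R) (Y : R) (a : Code) (r : ℕ) (t : List (List ℕ × ℕ × Bool)) : Prop :=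
  ∀ x ∈ t, Lc L T Y a r t x

theorem ok_spec {a : Code} {Y : R} (hD : Dec L T a Y) {r : ℕ} {t : List (List ℕ × ℕ × Bool)}
    (h : Ok L T Y a r t) : ∀ k, ∀ x ∈ t, x.2.1 = k → (x.2.2 = true ↔ Mk L T r (act T x.1 Y)) := by
  intro k
  induction k using Nat.strong_induction_on with
  | _ k ih =>
    rintro ⟨v, c, b⟩ hx hk
    simp only at hk ⊢
    subst hk
    obtain ⟨⟨hv, hc⟩, h2⟩ := h _ hx
    simp only at hv hc h2
    have hc := (cl_iff hD hv r c).1 hc
    rcases h2 with ⟨rfl, h3⟩ | ⟨rfl, w, hw, c', h3, h4⟩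
    · simp only [true_iff]
      rw [mk_iff]
      rintro Z ⟨w, hw, rfl⟩ h4
      obtain ⟨c', h5, h6⟩ := h3 w hw
      have hwv : Wd L (w ++ v) := wd_append (mem_WL.1 hw).1 hv
      have h5 := (cl_iff hD hwv r c').1 h5
      rw [act_append] at h5
      rcases h6 with h6 | h6
      · omega
      · have h7 := ih c' (by omega) _ h6 rfl
        simp only [Bool.false_eq_true, false_iff, act_append] at h7
        exact h7
    · simp only [Bool.false_eq_true, false_iff]
      intro h5
      have h6 := ih c' h3 _ h4 rfl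
      simp only [true_iff] at h6
      have hwv : Wd L (w ++ v) := wd_append (mem_WL.1 hw).1 hv
      have h7 := (cl_iff hD hwv r c').1 (h _ h4).1.2
      rw [act_append] at h6 h7
      exact mk_iff.1 h5 _ ⟨w, hw, rfl⟩ (by omega) h6

open Classical in
/-- the correct entry for a word -/
noncomputable def en (L : ℕ) (T : ℕ → R → R) (Y : R) (r : ℕ) (v : List ℕ) : List ℕ × ℕ × Bool :=
  (v, col L T r (act T v Y), decide (Mk L T r (act T v Y)))

theorem lc_mono {a : Code} {Y : R} {r : ℕ} {t t' : List (List ℕ × ℕ × Bool)}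
    (htt : ∀ x ∈ t, x ∈ t') {x : List ℕ × ℕ × Bool} (h : Lc L T Y a r t x) :
    Lc L T Y a r t' x := by
  refine ⟨h.1, ?_⟩
  rcases h.2 with ⟨h1, h2⟩ | ⟨h1, w, hw, c, hc, h2⟩
  · refine Or.inl ⟨h1, fun w hw => ?_⟩
    obtain ⟨c, hc, h3⟩ := h2 w hw
    exact ⟨c, hc, h3.imp id (htt _)⟩
  · exact Or.inr ⟨h1, w, hw, c, hc, htt _ h2⟩

theorem exists_table {a : Code} {Y : R} (hD : Dec L T a Y) (r : ℕ) : ∀ (k : ℕ)
    (V : List (List ℕ)), (∀ v ∈ V, Wd L v ∧ col L T r (act T v Y) < k) →
    ∃ t, Ok L T Y a r t ∧ ∀ v ∈ V, en L T Y r v ∈ t := by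
  classical
  intro k
  induction k with
  | zero =>
    intro V hV
    refine ⟨[], fun x hx => absurd hx (by simp), fun v hv => ?_⟩
    exact absurd (hV v hv).2 (by omega)
  | succ k ih =>
    intro V hV
    obtain ⟨t, ht, hV'⟩ := ih ((V.flatMap fun v => (WL L r).map fun w => w ++ v).filter
      fun v => decide (col L T r (act T v Y) < k)) (by
        intro v hv
        obtain ⟨h1, h2⟩ := List.mem_filter.1 hv
        obtain ⟨v', h3, h4⟩ := List.mem_flatMap.1 h1
        obtain ⟨w, hw, rfl⟩ := List.mem_map.1 h4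
        exact ⟨wd_append (mem_WL.1 hw).1 (hV v' h3).1, by simpa using h2⟩)
    have hin : ∀ v ∈ V, ∀ w ∈ WL L r, col L T r (act T (w ++ v) Y) < k →
        en L T Y r (w ++ v) ∈ t := by
      intro v hv w hw hc
      refine hV' _ (List.mem_filter.2 ⟨List.mem_flatMap.2 ⟨v, hv, List.mem_map.2 ⟨w, hw, rfl⟩⟩,
        by simpa using hc⟩)
    refine ⟨V.map (en L T Y r) ++ t, fun x hx => ?_, fun v hv =>
      List.mem_append_left _ (List.mem_map.2 ⟨v, hv, rfl⟩)⟩
    rcases List.mem_append.1 hx with h1 | h1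
    · obtain ⟨v, hv, rfl⟩ := List.mem_map.1 h1
      obtain ⟨hvw, hvc⟩ := hV v hv
      refine ⟨⟨hvw, (cl_iff hD hvw r _).2 rfl⟩, ?_⟩
      by_cases hm : Mk L T r (act T v Y)
      · refine Or.inl ⟨by simp [en, hm], fun w hw => ?_⟩
        have hwv : Wd L (w ++ v) := wd_append (mem_WL.1 hw).1 hvw
        refine ⟨col L T r (act T (w ++ v) Y), (cl_iff hD hwv r _).2 rfl, ?_⟩
        by_cases hle : col L T r (act T v Y) ≤ col L T r (act T (w ++ v) Y)
        · exact Or.inl hle
        · right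
          have h2 := hin v hv w hw (by omega)
          have h3 : ¬ Mk L T r (act T (w ++ v) Y) :=
            mk_iff.1 hm _ ⟨w, hw, (act_append w v Y).symm⟩ (by omega)
          have h4 : en L T Y r (w ++ v) = (w ++ v, col L T r (act T (w ++ v) Y), false) := by
            simp [en, h3]
          rw [h4] at h2
          exact List.mem_append_right _ h2
      · refine Or.inr ⟨by simp [en, hm], ?_⟩
        rw [mk_iff] at hm
        push Not at hm
        obtain ⟨Z, ⟨w, hw, rfl⟩, h2, h3⟩ := hm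
        rw [← act_append] at h2 h3
        refine ⟨w, hw, col L T r (act T (w ++ v) Y), h2, ?_⟩
        have h4 := hin v hv w hw (by omega)
        have h5 : en L T Y r (w ++ v) = (w ++ v, col L T r (act T (w ++ v) Y), true) := by
          simp [en, h3]
        rw [h5] at h4
        exact List.mem_append_right _ h4
    · exact lc_mono (fun x hx => List.mem_append_right _ hx) (ht x h1)

/-- the relation -/
def PS (L : ℕ) (T : ℕ → R → R) (Y : R) (x : Code × ℕ × List ℕ × List ℕ) : Prop :=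
  ∃ y : List (List ℕ × ℕ × Bool) × ℕ, Ok L T Y x.1 x.2.1 y.1 ∧
    ((WL L x.2.1)[y.2]? = some x.2.2.2 ∧ ∃ c, (x.2.2.2 ++ x.2.2.1, c, true) ∈ y.1) ∧
    ∀ j < y.2, ∃ c, ((WL L x.2.1).getD j [] ++ x.2.2.1, c, false) ∈ y.1

theorem pp_mem {α β : Type} [Primcodable α] [Primcodable β] {f : α → List β} {g : α → β}
    (hf : Primrec f) (hg : Primrec g) : PrimrecPred fun a => g a ∈ f a := by
  classical
  have h2 : PrimrecPred fun x : α => ∃ b ∈ f x, b = g x :=
    PP.ex_mem (α := α) (p := fun x b => b = g x)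
      (Primrec.eq.comp Primrec.snd (hg.comp Primrec.fst)) hf
  exact h2.of_eq (by simp)

theorem us_ok (h1 : S_ACT) (hA : Acts ps L T) : US fun Y
    (x : Code × ℕ × List (List ℕ × ℕ × Bool)) => Ok L T Y x.1 x.2.1 x.2.2 := by
  have hc := us_cl h1 hA
  unfold Ok
  refine US.all_mem (α := Code × ℕ × List (List ℕ × ℕ × Bool)) (β := List ℕ × ℕ × Bool)
    (P := fun Y x y => Lc L T Y x.1 x.2.1 x.2.2 y) ?_ (Primrec.snd.comp Primrec.snd)
  unfold Lc
  have pa : Primrec fun x : (Code × ℕ × List (List ℕ × ℕ × Bool)) × List ℕ × ℕ × Bool => x.1.1 :=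
    Primrec.fst.comp Primrec.fst
  have pr : Primrec fun x : (Code × ℕ × List (List ℕ × ℕ × Bool)) × List ℕ × ℕ × Bool =>
      x.1.2.1 := Primrec.fst.comp (Primrec.snd.comp Primrec.fst)
  have pt : Primrec fun x : (Code × ℕ × List (List ℕ × ℕ × Bool)) × List ℕ × ℕ × Bool =>
      x.1.2.2 := Primrec.snd.comp (Primrec.snd.comp Primrec.fst)
  have pv : Primrec fun x : (Code × ℕ × List (List ℕ × ℕ × Bool)) × List ℕ × ℕ × Bool => x.2.1 :=
    Primrec.fst.comp Primrec.snd
  have pc : Primrec fun x : (Code × ℕ × List (List ℕ × ℕ × Bool)) × List ℕ × ℕ × Bool =>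
      x.2.2.1 := Primrec.fst.comp (Primrec.snd.comp Primrec.snd)
  have pb : Primrec fun x : (Code × ℕ × List (List ℕ × ℕ × Bool)) × List ℕ × ℕ × Bool =>
      x.2.2.2 := Primrec.snd.comp (Primrec.snd.comp Primrec.snd)
  have pW : Primrec fun x : (Code × ℕ × List (List ℕ × ℕ × Bool)) × List ℕ × ℕ × Bool =>
      WL L x.1.2.1 := (primrec_WL L).comp pr
  refine US.and (US.and (US.of_prim ((Pool.Agent.Q26.ZD.pp_wd L).comp pv)) (hc.comp
    (pa.pair (pr.pair (pv.pair pc))))) (US.or (US.and (US.of_prim (Primrec.eq.comp pb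
    (Primrec.const true))) ?_) (US.and (US.of_prim (Primrec.eq.comp pb
    (Primrec.const false))) ?_))
  · refine US.all_mem (α := (Code × ℕ × List (List ℕ × ℕ × Bool)) × List ℕ × ℕ × Bool)
      (β := List ℕ) (P := fun Y x w => ∃ c, Cl L T Y (x.1.1, x.1.2.1, w ++ x.2.1, c) ∧
        (x.2.2.1 ≤ c ∨ (w ++ x.2.1, c, false) ∈ x.1.2.2)) ?_ pW
    refine US.ex (α := ((Code × ℕ × List (List ℕ × ℕ × Bool)) × List ℕ × ℕ × Bool) × List ℕ)
      (β := ℕ) (P := fun Y x c => Cl L T Y (x.1.1.1, x.1.1.2.1, x.2 ++ x.1.2.1, c) ∧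
        (x.1.2.2.1 ≤ c ∨ (x.2 ++ x.1.2.1, c, false) ∈ x.1.1.2.2)) ?_
    have q1 : Primrec fun x : (((Code × ℕ × List (List ℕ × ℕ × Bool)) × List ℕ × ℕ × Bool) ×
        List ℕ) × ℕ => x.1.2 ++ x.1.1.2.1 :=
      Primrec.list_append.comp (Primrec.snd.comp Primrec.fst) (pv.comp (Primrec.fst.comp
        Primrec.fst))
    refine US.and (hc.comp ((pa.comp (Primrec.fst.comp Primrec.fst)).pair
      ((pr.comp (Primrec.fst.comp Primrec.fst)).pair (q1.pair Primrec.snd)))) (US.or
      (US.of_prim (Primrec.nat_le.comp (pc.comp (Primrec.fst.comp Primrec.fst)) Primrec.snd))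
      (US.of_prim (pp_mem (pt.comp (Primrec.fst.comp Primrec.fst))
        (q1.pair (Primrec.snd.pair (Primrec.const false))))))
  · refine US.ex_mem (α := (Code × ℕ × List (List ℕ × ℕ × Bool)) × List ℕ × ℕ × Bool)
      (β := List ℕ) (P := fun Y x w => ∃ c, c < x.2.2.1 ∧ (w ++ x.2.1, c, true) ∈ x.1.2.2) ?_ pW
    refine US.ex (α := ((Code × ℕ × List (List ℕ × ℕ × Bool)) × List ℕ × ℕ × Bool) × List ℕ)
      (β := ℕ) (P := fun Y x c => c < x.1.2.2.1 ∧ (x.2 ++ x.1.2.1, c, true) ∈ x.1.1.2.2) ?_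
    have q1 : Primrec fun x : (((Code × ℕ × List (List ℕ × ℕ × Bool)) × List ℕ × ℕ × Bool) ×
        List ℕ) × ℕ => x.1.2 ++ x.1.1.2.1 :=
      Primrec.list_append.comp (Primrec.snd.comp Primrec.fst) (pv.comp (Primrec.fst.comp
        Primrec.fst))
    exact US.and
      (US.of_prim (Primrec.nat_lt.comp Primrec.snd (pc.comp (Primrec.fst.comp Primrec.fst))))
      (US.of_prim (pp_mem (pt.comp (Primrec.fst.comp Primrec.fst))
        (q1.pair (Primrec.snd.pair (Primrec.const true)))))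

theorem us_PS (h1 : S_ACT) (hA : Acts ps L T) : US (PS L T) := by
  unfold PS
  refine US.ex (α := Code × ℕ × List ℕ × List ℕ) (β := List (List ℕ × ℕ × Bool) × ℕ)
    (P := fun Y x y => Ok L T Y x.1 x.2.1 y.1 ∧
    ((WL L x.2.1)[y.2]? = some x.2.2.2 ∧ ∃ c, (x.2.2.2 ++ x.2.2.1, c, true) ∈ y.1) ∧
    ∀ j < y.2, ∃ c, ((WL L x.2.1).getD j [] ++ x.2.2.1, c, false) ∈ y.1) ?_
  have pa : Primrec fun x : (Code × ℕ × List ℕ × List ℕ) × List (List ℕ × ℕ × Bool) × ℕ =>
      x.1.1 := Primrec.fst.comp Primrec.fst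
  have pr : Primrec fun x : (Code × ℕ × List ℕ × List ℕ) × List (List ℕ × ℕ × Bool) × ℕ =>
      x.1.2.1 := Primrec.fst.comp (Primrec.snd.comp Primrec.fst)
  have pu : Primrec fun x : (Code × ℕ × List ℕ × List ℕ) × List (List ℕ × ℕ × Bool) × ℕ =>
      x.1.2.2.1 := Primrec.fst.comp (Primrec.snd.comp (Primrec.snd.comp Primrec.fst))
  have pw : Primrec fun x : (Code × ℕ × List ℕ × List ℕ) × List (List ℕ × ℕ × Bool) × ℕ =>
      x.1.2.2.2 := Primrec.snd.comp (Primrec.snd.comp (Primrec.snd.comp Primrec.fst))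
  have pt : Primrec fun x : (Code × ℕ × List ℕ × List ℕ) × List (List ℕ × ℕ × Bool) × ℕ =>
      x.2.1 := Primrec.fst.comp Primrec.snd
  have pi : Primrec fun x : (Code × ℕ × List ℕ × List ℕ) × List (List ℕ × ℕ × Bool) × ℕ =>
      x.2.2 := Primrec.snd.comp Primrec.snd
  have pW : Primrec fun x : (Code × ℕ × List ℕ × List ℕ) × List (List ℕ × ℕ × Bool) × ℕ =>
      WL L x.1.2.1 := (primrec_WL L).comp pr
  refine US.and ((us_ok h1 hA).comp (pa.pair (pr.pair pt))) (US.and (US.and (US.of_prim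
    (Primrec.eq.comp (Primrec.list_getElem?.comp pW pi) (Primrec.option_some.comp pw))) ?_) ?_)
  · refine US.ex (α := (Code × ℕ × List ℕ × List ℕ) × List (List ℕ × ℕ × Bool) × ℕ)
      (β := ℕ) (P := fun Y x c => (x.1.2.2.2 ++ x.1.2.2.1, c, true) ∈ x.2.1) ?_
    exact US.of_prim (pp_mem (pt.comp Primrec.fst) ((Primrec.list_append.comp
      (pw.comp Primrec.fst) (pu.comp Primrec.fst)).pair (Primrec.snd.pair (Primrec.const true))))
  · refine US.all_lt (α := (Code × ℕ × List ℕ × List ℕ) × List (List ℕ × ℕ × Bool) × ℕ)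
      (P := fun Y x j => ∃ c, ((WL L x.1.2.1).getD j [] ++ x.1.2.2.1, c, false) ∈ x.2.1) ?_ pi
    refine US.ex (α := ((Code × ℕ × List ℕ × List ℕ) × List (List ℕ × ℕ × Bool) × ℕ) × ℕ)
      (β := ℕ) (P := fun Y x c =>
        ((WL L x.1.1.2.1).getD x.2 [] ++ x.1.1.2.2.1, c, false) ∈ x.1.2.1) ?_
    exact US.of_prim (pp_mem (pt.comp (Primrec.fst.comp Primrec.fst))
      ((Primrec.list_append.comp ((Primrec.list_getD []).comp (pW.comp (Primrec.fst.comp
        Primrec.fst)) (Primrec.snd.comp Primrec.fst)) (pu.comp (Primrec.fst.comp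
        Primrec.fst))).pair (Primrec.snd.pair (Primrec.const false))))

end

/-- **SEL** -/
theorem t_SEL (h1 : S_ACT) : S_SEL := by
  intro ps L T hA
  refine ⟨PS L T, us_PS h1 hA, fun a Y hD r u w hu => ?_⟩
  obtain ⟨W1, W2, hW, hm, hno⟩ := wsel_spec (L := L) (T := T) r (act T u Y)
  have e1 : (WL L r)[W1.length]? = some (wsel L T r (act T u Y)) := by
    rw [hW, List.getElem?_append_right le_rfl]
    simp
  have e2 : ∀ j < W1.length, ∃ w' ∈ W1, (WL L r)[j]? = some w' := by
    intro j hj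
    refine ⟨W1[j], List.getElem_mem hj, ?_⟩
    rw [hW, List.getElem?_append_left hj, List.getElem?_eq_getElem hj]
  constructor
  · rintro ⟨⟨t, i⟩, hok, ⟨hi, c, hc⟩, hj⟩
    simp only at hok hi hc hj
    have h1 := (ok_spec hD hok _ _ hc rfl).1 rfl
    simp only [act_append] at h1
    rcases Nat.lt_trichotomy i W1.length with h2 | h2 | h2
    · obtain ⟨w', hw', h3⟩ := e2 i h2
      rw [hi] at h3
      cases Option.some.inj h3
      exact absurd h1 (hno w hw')
    · subst h2
      rw [hi] at e1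
      exact Option.some.inj e1
    · obtain ⟨c', hc'⟩ := hj _ h2
      have h3 : (WL L r).getD W1.length [] = wsel L T r (act T u Y) := by
        rw [List.getD_eq_getElem?_getD, e1]
        rfl
      rw [h3] at hc'
      have h4 := ok_spec hD hok _ _ hc' rfl
      simp only [Bool.false_eq_true, false_iff, act_append] at h4
      exact absurd hm h4
  · rintro rfl
    have hV : ∀ v ∈ (WL L r).map fun w => w ++ u, Wd L v := by
      intro v hv
      obtain ⟨w, hw, rfl⟩ := List.mem_map.1 hv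
      exact wd_append (mem_WL.1 hw).1 hu
    obtain ⟨k, hk⟩ : ∃ k, ∀ v ∈ (WL L r).map fun w => w ++ u, col L T r (act T v Y) < k := by
      generalize (WL L r).map (fun w => w ++ u) = V
      induction V with
      | nil => exact ⟨0, fun v hv => absurd hv (by simp)⟩
      | cons x V ih =>
        obtain ⟨k, hk⟩ := ih
        refine ⟨max k (col L T r (act T x Y) + 1), fun v hv => ?_⟩
        rcases List.mem_cons.1 hv with rfl | h
        · omega
        · have := hk v h
          omega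
    obtain ⟨t, ht, hin⟩ := exists_table hD r k _ fun v hv => ⟨hV v hv, hk v hv⟩
    refine ⟨(t, W1.length), ht, ⟨e1, col L T r (act T (wsel L T r (act T u Y) ++ u) Y), ?_⟩,
      fun j hj => ?_⟩
    · have h2 := hin (wsel L T r (act T u Y) ++ u) (List.mem_map.2 ⟨wsel L T r (act T u Y), wsel_mem r _, rfl⟩)
      have h3 : Mk L T r (act T (wsel L T r (act T u Y) ++ u) Y) := by
        rw [act_append]
        exact hm
      have h5 : en L T Y r (wsel L T r (act T u Y) ++ u) = (wsel L T r (act T u Y) ++ u,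
          col L T r (act T (wsel L T r (act T u Y) ++ u) Y), true) := by
        simp [en, h3]
      rw [h5] at h2
      exact h2
    · obtain ⟨w', hw', h3⟩ := e2 j hj
      have h4 : (WL L r).getD j [] = w' := by
        rw [List.getD_eq_getElem?_getD, h3]
        rfl
      have h5 : w' ∈ WL L r := by
        rw [hW]
        exact List.mem_append_left _ hw'
      have h2 := hin (w' ++ u) (List.mem_map.2 ⟨_, h5, rfl⟩)
      have h6 : ¬ Mk L T r (act T (w' ++ u) Y) := by
        rw [act_append]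
        exact hno w' hw'
      have h7 : en L T Y r (w' ++ u) = (w' ++ u, col L T r (act T (w' ++ u) Y), false) := by
        simp [en, h6]
      rw [h7] at h2
      simp only [h4]
      exact ⟨_, h2⟩

end Pool.Agent.Q216.ZD.Sel
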