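import Pool.Agent.Q216.ZD.Rst
import Pool.Agent.Q216.ZD.Sel
import Pool.Agent.Q68.ZD.PROG
import Pool.Agent.Q68.ZD.ACT
import Pool.Agent.Q184.ZD.CNT
import Pool.Agent.Q125.ZD.Comm
import Pool.Agent.Q125.ZD.Full
import Pool.Agent.Q124.ZD.Dec
import Pool.Agent.Q124.ZD.Init
import Pool.Agent.Q124.ZD.Step
import Pool.Agent.Q124.ZD.Patch
import Pool.Agent.Q26.ZD.Eq
import Pool.Agent.Q26.ZD.Back
import Pool.Agent.Q237.ZD.Deg
import Pool.Agent.Q195.ZD.Grow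
import Pool.Agent.Q195.ZD.Invc

set_option autoImplicit false

/-!
Project ZD: the statements of `Spec.lean` are proved; the three theorems without hypotheses.
-/

namespace Pool.Agent.Q216.ZD

theorem a_SEL : S_SEL := Sel.t_SEL t_ACT

theorem a_EQ : S_EQ := Pool.Agent.Q26.ZD.t_EQ t_ACT a_SEL

theorem a_STEP : S_STEP := Pool.Agent.Q124.ZD.t_STEP t_PROG t_ACT a_SEL

theorem a_BACK : S_BACK := Pool.Agent.Q26.ZD.t_BACK t_PROG t_ACT

theorem a_INIT : S_INIT := Pool.Agent.Q124.ZD.t_INIT t_PROG t_ACT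

theorem a_DEG : S_DEG := Pool.Agent.Q237.ZD.t_DEG t_ACT

theorem a_INVC : S_INVC := Pool.Agent.Q195.ZD.Invc.t_INVC t_PROG

end Pool.Agent.Q216.ZD
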