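import Pool.Agent.Q216.ZD.Spec

set_option autoImplicit false

/-!
Basic facts for project ZD: closure properties of `US`, words, markers.
-/

namespace Pool.Agent.Q216.ZD

open Encodable Pool.Agent.Helper227 Pool.Agent.H548R2.Post
open Nat.Partrec (Code)
open Pool.Agent.TH769.TP (Via lab Unb)

/-! ## Semi-decidable relations -/

namespace US

variable {α β γ : Type} [Primcodable α] [Primcodable β] [Primcodable γ]

theorem of_eq {P Q : R → α → Prop} (hP : US P) (h : ∀ X a, P X a ↔ Q X a) : US Q :=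
  (funext fun X => funext fun a => propext (h X a) : P = Q) ▸ hP

theorem of_s1 {p : α → Prop} (hp : S1 p) : US fun _ a => p a :=
  ⟨fun x => p x.2, hp.comp Primrec.snd, fun _ _ _ _ h => h, fun _ _ => by simp⟩

theorem of_prim {p : α → Prop} (hp : PrimrecPred p) : US fun _ a => p a := of_s1 (S1.of_prim hp)

theorem comp {P : R → β → Prop} {f : α → β} (hP : US P) (hf : Primrec f) :
    US fun X a => P X (f a) := by
  obtain ⟨E, hE, mE, eE⟩ := hP
  exact ⟨fun x => E (x.1, f x.2), hE.comp (Primrec.fst.pair (hf.comp Primrec.snd)),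
    fun σ τ a h => mE _ _ _ h, fun X a => eE _ _⟩

theorem and {P Q : R → α → Prop} (hP : US P) (hQ : US Q) : US fun X a => P X a ∧ Q X a := by
  obtain ⟨E, hE, mE, eE⟩ := hP
  obtain ⟨F, hF, mF, eF⟩ := hQ
  refine ⟨fun x => E x ∧ F x, hE.and hF, fun σ τ a h h2 => ⟨mE _ _ _ h h2.1, mF _ _ _ h h2.2⟩,
    fun X a => ?_⟩
  refine (and_congr (eE X a) (eF X a)).trans ?_
  constructor
  · rintro ⟨⟨s, hs⟩, ⟨t, ht⟩⟩
    exact ⟨max s t, mE _ _ _ (pre_prefix X (le_max_left _ _)) hs,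
      mF _ _ _ (pre_prefix X (le_max_right _ _)) ht⟩
  · rintro ⟨s, h1, h2⟩
    exact ⟨⟨s, h1⟩, ⟨s, h2⟩⟩

theorem or {P Q : R → α → Prop} (hP : US P) (hQ : US Q) : US fun X a => P X a ∨ Q X a := by
  obtain ⟨E, hE, mE, eE⟩ := hP
  obtain ⟨F, hF, mF, eF⟩ := hQ
  refine ⟨fun x => E x ∨ F x, hE.or hF, fun σ τ a h h2 => h2.imp (mE _ _ _ h) (mF _ _ _ h),
    fun X a => ?_⟩
  exact (or_congr (eE X a) (eF X a)).trans exists_or.symm

theorem ex {P : R → α → β → Prop} (hP : US fun X (x : α × β) => P X x.1 x.2) :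
    US fun X a => ∃ b, P X a b := by
  obtain ⟨E, hE, mE, eE⟩ := hP
  refine ⟨fun x => ∃ b, E (x.1, (x.2, b)), S1.ex (hE.comp ?_), ?_, fun X a => ?_⟩
  · exact (Primrec.fst.comp Primrec.fst).pair ((Primrec.snd.comp Primrec.fst).pair Primrec.snd)
  · rintro σ τ a h ⟨b, hb⟩
    exact ⟨b, mE _ _ _ h hb⟩
  · constructor
    · rintro ⟨b, hb⟩
      obtain ⟨s, hs⟩ := (eE X (a, b)).1 hb
      exact ⟨s, b, hs⟩
    · rintro ⟨s, b, hs⟩
      exact ⟨b, (eE X (a, b)).2 ⟨s, hs⟩⟩

theorem all_mem {P : R → α → β → Prop} {f : α → List β}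
    (hP : US fun X (x : α × β) => P X x.1 x.2) (hf : Primrec f) :
    US fun X a => ∀ b ∈ f a, P X a b := by
  obtain ⟨E, hE, mE, eE⟩ := hP
  refine ⟨fun x => ∀ b ∈ f x.2, E (x.1, (x.2, b)), S1.all_mem (hE.comp ?_) (hf.comp Primrec.snd),
    ?_, fun X a => ?_⟩
  · exact (Primrec.fst.comp Primrec.fst).pair ((Primrec.snd.comp Primrec.fst).pair Primrec.snd)
  · rintro σ τ a h h2 b hb
    exact mE _ _ _ h (h2 b hb)
  · have : ∀ L : List β, (∀ b ∈ L, P X a b) ↔ ∃ s, ∀ b ∈ L, E (pre X s, (a, b)) := by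
      intro L
      induction L with
      | nil => simp
      | cons c L ih =>
        simp only [List.mem_cons, forall_eq_or_imp, ih]
        have := eE X (a, c)
        simp only at this
        rw [this]
        constructor
        · rintro ⟨⟨m, hm'⟩, ⟨n, hn⟩⟩
          exact ⟨max m n, mE _ _ _ (pre_prefix X (le_max_left _ _)) hm',
            fun b hb => mE _ _ _ (pre_prefix X (le_max_right _ _)) (hn b hb)⟩
        · rintro ⟨n, h1, h2⟩
          exact ⟨⟨n, h1⟩, ⟨n, h2⟩⟩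
    exact this _

theorem all_lt {P : R → α → ℕ → Prop} {f : α → ℕ}
    (hP : US fun X (x : α × ℕ) => P X x.1 x.2) (hf : Primrec f) :
    US fun X a => ∀ b < f a, P X a b :=
  (all_mem hP (Primrec.list_range.comp hf)).of_eq (by simp)

theorem ex_mem {P : R → α → β → Prop} {f : α → List β}
    (hP : US fun X (x : α × β) => P X x.1 x.2) (hf : Primrec f) :
    US fun X a => ∃ b ∈ f a, P X a b := by
  have h1 : PrimrecPred fun x : α × β => x.2 ∈ f x.1 := by
    classical
    have h2 : PrimrecPred fun x : α × β => ∃ b ∈ f x.1, b = x.2 :=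
      PP.ex_mem (α := α × β) (p := fun x b => b = x.2)
        (Primrec.eq.comp Primrec.snd (Primrec.snd.comp Primrec.fst)) (hf.comp Primrec.fst)
    exact h2.of_eq (by simp)
  exact (ex (P := fun X a b => b ∈ f a ∧ P X a b) ((of_prim h1).and hP)).of_eq fun X a => by simp

theorem query : US fun X (x : ℕ × Bool) => X x.1 = x.2 := by
  refine ⟨fun x => x.1[x.2.1]? = some x.2.2, S1.of_prim ?_, ?_, ?_⟩
  · exact Primrec.eq.comp (Primrec.list_getElem?.comp Primrec.fst (Primrec.fst.comp Primrec.snd))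
      (Primrec.option_some.comp (Primrec.snd.comp Primrec.snd))
  · rintro σ τ ⟨n, b⟩ ⟨ρ, rfl⟩ h
    simp only at h ⊢
    have h1 : n < σ.length := by
      by_contra hc
      rw [List.getElem?_eq_none (by omega)] at h
      cases h
    rw [List.getElem?_append_left h1]
    exact h
  · rintro X ⟨n, b⟩
    simp only
    constructor
    · intro h
      exact ⟨n + 1, by rw [pre_getElem? _ _ _ (Nat.lt_succ_self n), h]⟩
    · rintro ⟨s, hs⟩
      by_cases h1 : n < s
      · rw [pre_getElem? _ _ _ h1] at hs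
        exact Option.some.inj hs
      · rw [pre_getElem?_none _ _ _ (by omega)] at hs
        cases hs

end US

/-! ## Words -/

section

variable {L : ℕ} {T : ℕ → R → R}

@[simp] theorem act_nil (X : R) : act T [] X = X := rfl

@[simp] theorem act_cons (c : ℕ) (w : List ℕ) (X : R) : act T (c :: w) X = T c (act T w X) := rfl

theorem act_append (w w' : List ℕ) (X : R) : act T (w ++ w') X = act T w (act T w' X) := by
  unfold act
  rw [List.foldr_append]

theorem wd_nil : Wd L [] := fun c hc => absurd hc (by simp)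

theorem wd_append {w w' : List ℕ} (h : Wd L w) (h' : Wd L w') : Wd L (w ++ w') := by
  intro c hc
  rcases List.mem_append.1 hc with h1 | h1
  · exact h c h1
  · exact h' c h1

theorem wd_cons {c : ℕ} {w : List ℕ} (hc : c < L) (h : Wd L w) : Wd L (c :: w) := by
  intro d hd
  rcases List.mem_cons.1 hd with rfl | h1
  · exact hc
  · exact h d h1

theorem wd_tail {c : ℕ} {w : List ℕ} (h : Wd L (c :: w)) : Wd L w :=
  fun d hd => h d (List.mem_cons_of_mem _ hd)

theorem mem_WL {r : ℕ} {w : List ℕ} : w ∈ WL L r ↔ Wd L w ∧ w.length ≤ r := by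
  induction r generalizing w with
  | zero =>
    simp only [WL, List.mem_singleton, Nat.le_zero, List.length_eq_zero_iff]
    exact ⟨fun h => ⟨h ▸ wd_nil, h⟩, fun h => h.2⟩
  | succ r ih =>
    simp only [WL, List.mem_cons, List.mem_flatMap, List.mem_map, List.mem_range]
    constructor
    · rintro (rfl | ⟨w', h1, c, hc, rfl⟩)
      · exact ⟨wd_nil, by simp⟩
      · obtain ⟨h2, h3⟩ := ih.1 h1
        exact ⟨wd_cons hc h2, by simp; omega⟩
    · rintro ⟨h1, h2⟩
      cases w with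
      | nil => exact Or.inl rfl
      | cons c w =>
        refine Or.inr ⟨w, ih.2 ⟨wd_tail h1, by simpa using h2⟩, c, h1 c (by simp), rfl⟩

theorem nil_mem_WL (r : ℕ) : [] ∈ WL L r := mem_WL.2 ⟨wd_nil, by simp⟩

theorem xor_one_lt {c : ℕ} (hL : L % 2 = 0) (hc : c < L) : c ^^^ 1 < L := by
  rcases Nat.even_or_odd c with h | h
  · have h1 : c ^^^ 1 = c + 1 := Nat.xor_one_of_even h
    obtain ⟨k, rfl⟩ := h
    omega
  · have h1 : c ^^^ 1 = c - 1 := Nat.xor_one_of_odd h
    omega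

theorem xor_one_one (c : ℕ) : c ^^^ 1 ^^^ 1 = c := by
  rw [Nat.xor_assoc, Nat.xor_self, Nat.xor_zero]

theorem iv_nil : iv [] = [] := rfl

theorem iv_cons (c : ℕ) (w : List ℕ) : iv (c :: w) = iv w ++ [c ^^^ 1] := by
  simp [iv]

theorem iv_append (w w' : List ℕ) : iv (w ++ w') = iv w' ++ iv w := by
  simp [iv]

theorem iv_length (w : List ℕ) : (iv w).length = w.length := by simp [iv]

theorem iv_iv (w : List ℕ) : iv (iv w) = w := by
  simp [iv, Function.comp_def]

theorem wd_iv {w : List ℕ} (hL : L % 2 = 0) (h : Wd L w) : Wd L (iv w) := by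
  intro c hc
  simp only [iv, List.mem_reverse, List.mem_map] at hc
  obtain ⟨d, hd, rfl⟩ := hc
  exact xor_one_lt hL (h d hd)

variable {ps : List Code}

theorem act_iv_act (hA : Acts ps L T) {w : List ℕ} (hw : Wd L w) (X : R) :
    act T (iv w) (act T w X) = X := by
  induction w generalizing X with
  | nil => rfl
  | cons c w ih =>
    rw [iv_cons, act_append, act_cons]
    show act T (iv w) (T (c ^^^ 1) (T c (act T w X))) = X
    rw [hA.inv c (hw c (by simp)), ih (wd_tail hw)]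

theorem act_act_iv (hA : Acts ps L T) {w : List ℕ} (hw : Wd L w) (X : R) :
    act T w (act T (iv w) X) = X := by
  have h := act_iv_act hA (wd_iv hA.ev hw) X
  rwa [iv_iv] at h

theorem act_inj (hA : Acts ps L T) {w : List ℕ} (hw : Wd L w) {X Y : R}
    (h : act T w X = act T w Y) : X = Y := by
  rw [← act_iv_act hA hw X, h, act_iv_act hA hw Y]

theorem inv' (hA : Acts ps L T) {c : ℕ} (hc : c < L) (X : R) : T c (T (c ^^^ 1) X) = X := by
  have h := hA.inv (c ^^^ 1) (xor_one_lt hA.ev hc) X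
  rwa [xor_one_one] at h

theorem near_refl (r : ℕ) (X : R) : near L T r X X := ⟨[], nil_mem_WL r, rfl⟩

theorem near_symm (hA : Acts ps L T) {r : ℕ} {X Y : R} (h : near L T r X Y) : near L T r Y X := by
  obtain ⟨w, hw, rfl⟩ := h
  obtain ⟨h1, h2⟩ := mem_WL.1 hw
  exact ⟨iv w, mem_WL.2 ⟨wd_iv hA.ev h1, by rw [iv_length]; exact h2⟩, act_iv_act hA h1 X⟩

theorem near_trans {r s : ℕ} {X Y Z : R} (h : near L T r X Y) (h' : near L T s Y Z) :
    near L T (r + s) X Z := by
  obtain ⟨w, hw, rfl⟩ := h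
  obtain ⟨v, hv, rfl⟩ := h'
  obtain ⟨h1, h2⟩ := mem_WL.1 hw
  obtain ⟨h3, h4⟩ := mem_WL.1 hv
  exact ⟨v ++ w, mem_WL.2 ⟨wd_append h3 h1, by rw [List.length_append]; omega⟩, act_append _ _ _⟩

theorem near_mono {r s : ℕ} (hrs : r ≤ s) {X Y : R} (h : near L T r X Y) : near L T s X Y := by
  obtain ⟨w, hw, rfl⟩ := h
  obtain ⟨h1, h2⟩ := mem_WL.1 hw
  exact ⟨w, mem_WL.2 ⟨h1, h2.trans hrs⟩, rfl⟩

theorem InOrb.refl (X : R) : InOrb L T X X := ⟨[], wd_nil, rfl⟩

theorem InOrb.symm (hA : Acts ps L T) {X Y : R} (h : InOrb L T X Y) : InOrb L T Y X := by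
  obtain ⟨u, hu, rfl⟩ := h
  exact ⟨iv u, wd_iv hA.ev hu, act_iv_act hA hu X⟩

theorem InOrb.trans {X Y Z : R} (h : InOrb L T X Y) (h' : InOrb L T Y Z) : InOrb L T X Z := by
  obtain ⟨u, hu, rfl⟩ := h
  obtain ⟨v, hv, rfl⟩ := h'
  exact ⟨v ++ u, wd_append hv hu, act_append _ _ _⟩

theorem near.inOrb {r : ℕ} {X Y : R} (h : near L T r X Y) : InOrb L T X Y := by
  obtain ⟨w, hw, rfl⟩ := h
  exact ⟨w, (mem_WL.1 hw).1, rfl⟩

theorem ball_finite (b : ℕ) (X : R) : (Ball L T b X).Finite := by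
  have h : Ball L T b X = (fun w => act T w X) '' {w | w ∈ WL L b} := by
    ext Y
    simp [Ball, near]
  rw [h]
  exact Set.Finite.image _ (List.finite_toSet _)

theorem ball_nonempty (b : ℕ) (X : R) : (Ball L T b X).Nonempty := ⟨X, near_refl b X⟩

/-! ## Markers -/

theorem exists_len (r : ℕ) (Y : R) :
    ∃ l, ∀ w ∈ WL L r, act T w Y ≠ Y → pre (act T w Y) l ≠ pre Y l := by
  have h1 : ∀ Z : R, Z ≠ Y → ∃ l, ∀ l', l ≤ l' → pre Z l' ≠ pre Y l' := by
    intro Z hZ
    obtain ⟨i, hi⟩ : ∃ i, Z i ≠ Y i := by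
      by_contra hc
      push Not at hc
      exact hZ (funext hc)
    refine ⟨i + 1, fun l' hl' he => hi ?_⟩
    have h2 : (pre Z l')[i]? = (pre Y l')[i]? := by rw [he]
    rw [pre_getElem? _ _ _ (by omega), pre_getElem? _ _ _ (by omega)] at h2
    exact Option.some.inj h2
  have h2 : ∀ W : List (List ℕ), ∃ l, ∀ l', l ≤ l' → ∀ w ∈ W, act T w Y ≠ Y →
      pre (act T w Y) l' ≠ pre Y l' := by
    intro W
    induction W with
    | nil => exact ⟨0, fun _ _ w hw => absurd hw (by simp)⟩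
    | cons w W ih =>
      obtain ⟨l, hl⟩ := ih
      by_cases hw : act T w Y = Y
      · refine ⟨l, fun l' hl' v hv hne => ?_⟩
        rcases List.mem_cons.1 hv with rfl | h3
        · exact absurd hw hne
        · exact hl l' hl' v h3 hne
      · obtain ⟨m, hm⟩ := h1 _ hw
        refine ⟨max l m, fun l' hl' v hv hne => ?_⟩
        rcases List.mem_cons.1 hv with rfl | h3
        · exact hm l' (by omega)
        · exact hl l' (by omega) v h3 hne
  obtain ⟨l, hl⟩ := h2 (WL L r)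
  exact ⟨l, hl l le_rfl⟩

theorem len_spec (r : ℕ) (Y : R) :
    ∀ w ∈ WL L r, act T w Y ≠ Y → pre (act T w Y) (len L T r Y) ≠ pre Y (len L T r Y) :=
  Nat.sInf_mem (s := {l | ∀ w ∈ WL L r, act T w Y ≠ Y → pre (act T w Y) l ≠ pre Y l})
    (exists_len r Y)

theorem col_inj {r : ℕ} {Y Z : R} (h : col L T r Y = col L T r Z) (hn : near L T r Y Z) :
    Y = Z := by
  obtain ⟨w, hw, rfl⟩ := hn
  by_contra hc
  unfold col at h
  have h1 := Encodable.encode_injective h
  have h2 : len L T r Y = len L T r (act T w Y) := by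
    have := congrArg List.length h1
    rwa [length_pre, length_pre] at this
  rw [← h2] at h1
  exact len_spec r Y w hw (fun he => hc he.symm) h1.symm

theorem mkN_iff {r k : ℕ} {Y : R} : MkN L T r k Y ↔ col L T r Y < k ∧ Mk L T r Y := by
  induction k generalizing Y with
  | zero => simp [MkN]
  | succ k ih =>
    show (MkN L T r k Y ∨ (col L T r Y = k ∧ ∀ Z, near L T r Y Z → ¬ MkN L T r k Z)) ↔ _
    constructor
    · rintro (h | ⟨h1, h2⟩)
      · obtain ⟨h3, h4⟩ := ih.1 h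
        exact ⟨by omega, h4⟩
      · refine ⟨by omega, ?_⟩
        unfold Mk
        rw [h1]
        exact Or.inr ⟨h1, h2⟩
    · rintro ⟨h1, h2⟩
      rcases Nat.lt_succ_iff_lt_or_eq.1 h1 with h3 | h3
      · exact Or.inl (ih.2 ⟨h3, h2⟩)
      · unfold Mk at h2
        rw [h3] at h2
        exact h2

theorem mk_iff {r : ℕ} {Y : R} : Mk L T r Y ↔
    ∀ Z, near L T r Y Z → col L T r Z < col L T r Y → ¬ Mk L T r Z := by
  constructor
  · intro h Z hn hc hZ
    unfold Mk at h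
    rcases h with h | ⟨-, h⟩
    · exact absurd (mkN_iff.1 h).1 (lt_irrefl _)
    · exact h Z hn (mkN_iff.2 ⟨hc, hZ⟩)
  · intro h
    refine Or.inr ⟨rfl, fun Z hn hZ => ?_⟩
    obtain ⟨h1, h2⟩ := mkN_iff.1 hZ
    exact h Z hn h1 h2

theorem mk_disc (hA : Acts ps L T) {r : ℕ} {Y Z : R} (hY : Mk L T r Y) (hZ : Mk L T r Z)
    (hn : near L T r Y Z) : Y = Z := by
  rcases lt_trichotomy (col L T r Y) (col L T r Z) with h | h | h
  · exact absurd hY (mk_iff.1 hZ Y (near_symm hA hn) h)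
  · exact col_inj h hn
  · exact absurd hZ (mk_iff.1 hY Z hn h)

theorem exists_mk (r : ℕ) (Y : R) : ∃ w ∈ WL L r, Mk L T r (act T w Y) := by
  by_cases h : Mk L T r Y
  · exact ⟨[], nil_mem_WL r, h⟩
  · rw [mk_iff] at h
    push Not at h
    obtain ⟨Z, ⟨w, hw, rfl⟩, -, h2⟩ := h
    exact ⟨w, hw, h2⟩

/-- the first word of the list which leads to a marker -/
theorem wsel_spec (r : ℕ) (Y : R) : ∃ W1 W2 : List (List ℕ),
    WL L r = W1 ++ wsel L T r Y :: W2 ∧ Mk L T r (sel L T r Y) ∧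
      ∀ w ∈ W1, ¬ Mk L T r (act T w Y) := by
  classical
  obtain ⟨w, hw, hm⟩ := exists_mk (L := L) (T := T) r Y
  obtain ⟨v, hv⟩ : ∃ v, (WL L r).find? (fun w => decide (Mk L T r (act T w Y))) = some v := by
    rw [← Option.isSome_iff_exists, List.find?_isSome]
    exact ⟨w, hw, by simpa using hm⟩
  have h1 : wsel L T r Y = v := by
    unfold wsel
    rw [hv]
    rfl
  obtain ⟨h2, W1, W2, h3, h4⟩ := List.find?_eq_some_iff_append.1 hv
  refine ⟨W1, W2, ?_, ?_, fun w hw => ?_⟩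
  · rw [h1]
    exact h3
  · unfold sel
    rw [h1]
    simpa using h2
  · have := h4 w hw
    simpa using this

theorem wsel_mem (r : ℕ) (Y : R) : wsel L T r Y ∈ WL L r := by
  obtain ⟨W1, W2, h, -⟩ := wsel_spec (L := L) (T := T) r Y
  rw [h]
  simp

theorem mk_sel (r : ℕ) (Y : R) : Mk L T r (sel L T r Y) := by
  obtain ⟨W1, W2, -, h, -⟩ := wsel_spec (L := L) (T := T) r Y
  exact h

theorem near_sel (r : ℕ) (Y : R) : near L T r Y (sel L T r Y) := ⟨_, wsel_mem r Y, rfl⟩

theorem sn_eq (n : ℕ) (Y : R) : sn L T n Y = act T (wn L T n Y) Y := by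
  induction n with
  | zero => rfl
  | succ n ih =>
    show sel L T (2 ^ n) (sn L T n Y) = act T (wsel L T (2 ^ n) (sn L T n Y) ++ wn L T n Y) Y
    rw [act_append, ← ih]
    rfl

theorem wn_mem (n : ℕ) (Y : R) : wn L T n Y ∈ WL L (2 ^ n - 1) := by
  induction n with
  | zero => exact nil_mem_WL 0
  | succ n ih =>
    obtain ⟨h1, h2⟩ := mem_WL.1 ih
    obtain ⟨h3, h4⟩ := mem_WL.1 (wsel_mem (L := L) (T := T) (2 ^ n) (sn L T n Y))
    refine mem_WL.2 ⟨wd_append h3 h1, ?_⟩
    show (wsel L T (2 ^ n) (sn L T n Y) ++ wn L T n Y).length ≤ _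
    rw [List.length_append, pow_succ]
    have := Nat.one_le_two_pow (n := n)
    omega

theorem inOrb_sn (n : ℕ) (Y : R) : InOrb L T Y (sn L T n Y) :=
  ⟨wn L T n Y, (mem_WL.1 (wn_mem n Y)).1, (sn_eq n Y).symm⟩

theorem sn_eq_mono {n m : ℕ} (hnm : n ≤ m) {Y Z : R} (h : sn L T n Y = sn L T n Z) :
    sn L T m Y = sn L T m Z := by
  induction m, hnm using Nat.le_induction with
  | base => exact h
  | succ m _ ih =>
    show sel L T (2 ^ m) (sn L T m Y) = sel L T (2 ^ m) (sn L T m Z)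
    rw [ih]

theorem Feq.refl (Y : R) : Feq L T Y Y := ⟨0, rfl⟩

theorem Feq.symm {Y Z : R} (h : Feq L T Y Z) : Feq L T Z Y := by
  obtain ⟨n, hn⟩ := h
  exact ⟨n, hn.symm⟩

theorem Feq.trans {X Y Z : R} (h : Feq L T X Y) (h' : Feq L T Y Z) : Feq L T X Z := by
  obtain ⟨n, hn⟩ := h
  obtain ⟨m, hm⟩ := h'
  exact ⟨max n m, (sn_eq_mono (le_max_left _ _) hn).trans (sn_eq_mono (le_max_right _ _) hm)⟩

theorem Dec.of_inOrb {a : Code} {X Y : R} (h : Dec L T a X) (hXY : InOrb L T X Y) :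
    Dec L T a Y := by
  obtain ⟨u, hu, rfl⟩ := hXY
  intro w v hw hv n
  have := h w (v ++ u) hw (wd_append hv hu) n
  rwa [act_append] at this

theorem Full.of_inOrb {X Y : R} {A : Set R} (hXY : InOrb L T X Y) (h : Full L T X A) :
    Full L T Y A := by
  obtain ⟨u, hu, rfl⟩ := hXY
  intro w hw
  have := h (w ++ u) (wd_append hw hu)
  rwa [act_append] at this

/-! ## Trees -/

theorem sg_encode (σ : List Bool) : sg (encode σ) = σ := by
  simp [sg]

theorem zt_iff {A : Set R} {m : ℕ} : Zt A m = true ↔ ∃ Y ∈ A, pre Y (sg m).length = sg m := by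
  simp [Zt]

theorem zt_encode {A : Set R} {σ : List Bool} :
    Zt A (encode σ) = true ↔ ∃ Y ∈ A, pre Y σ.length = σ := by
  rw [zt_iff, sg_encode]

end

end Pool.Agent.Q216.ZD
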