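import Pool.Agent.Q216.ZD.Base

set_option autoImplicit false

/-!
The theorem on solutions to Post's problem which are invariant under commuting homeomorphisms,
from the statements of `Spec.lean`.
-/

namespace Pool.Agent.Q216.ZD

open Encodable Pool.Agent.Helper227 Pool.Agent.H548R2.Post
open Nat.Partrec (Code)
open Pool.Agent.TH769.TP (Via lab Unb lab_le le_lab)

/-- `X <_T V <_T X'` and `V' ≤_T X'` -/
def PostV (V X : R) : Prop :=
  TLe X V ∧ ¬ TLe V X ∧ TLe V (jump X) ∧ ¬ TLe (jump X) V ∧ TLe (jump V) (jump X)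

/-- the operator solves Post's problem at `X`, and its value is low over `X` -/
def PostAt (e : ℕ) (X : R) : Prop := PostV (chr (WE X e)) X

theorem PostV.congr {V V' X X' : R} (h : PostV V X) (h1 : TLe V' V) (h2 : TLe V V')
    (h3 : TLe X' X) (h4 : TLe X X') : PostV V' X' := by
  obtain ⟨x1, x2, x3, x4, x5⟩ := h
  exact ⟨TuringReducible.trans h3 (TuringReducible.trans x1 h2),
    fun h => x2 (TuringReducible.trans h2 (TuringReducible.trans h h3)),
    TuringReducible.trans h1 (TuringReducible.trans x3 h4.jump),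
    fun h => x4 (TuringReducible.trans h4.jump (TuringReducible.trans h h1)),
    TuringReducible.trans h1.jump (TuringReducible.trans x5 h4.jump)⟩

/-- the values at `X` and `Y` have the same degree -/
def WEq (e : ℕ) (X Y : R) : Prop :=
  TLe (chr (WE X e)) (chr (WE Y e)) ∧ TLe (chr (WE Y e)) (chr (WE X e))

/-- The tree `Zt A` is transformed into `Zt (sn n '' A)`. -/
theorem image_sn_succ {L : ℕ} {T : ℕ → R → R} (n : ℕ) (A : Set R) :
    sel L T (2 ^ n) '' (sn L T n '' A) = sn L T (n + 1) '' A := by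
  rw [← Set.image_comp]
  rfl

theorem full_eq {L : ℕ} {T : ℕ → R → R} {X : R} {A B : Set R} (hA : A.Finite)
    (hB : B.Finite) (oA : ∀ Y ∈ A, InOrb L T X Y) (oB : ∀ Y ∈ B, InOrb L T X Y)
    (fA : Full L T X A) (fB : Full L T X B) : ∃ n, sn L T n '' A = sn L T n '' B := by
  have key : ∀ {A B : Set R}, A.Finite → (∀ Y ∈ A, InOrb L T X Y) → Full L T X B →
      ∃ n, ∀ m, n ≤ m → sn L T m '' A ⊆ sn L T m '' B := by
    intro A B hA oA fB
    have h1 : ∀ Y ∈ A, ∃ n, ∀ m, n ≤ m → sn L T m Y ∈ sn L T m '' B := by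
      intro Y hY
      obtain ⟨u, hu, rfl⟩ := oA Y hY
      obtain ⟨Z, hZ, n, hn⟩ := fB u hu
      exact ⟨n, fun m hm => ⟨Z, hZ, (sn_eq_mono hm hn).symm⟩⟩
    choose! f hf using h1
    obtain ⟨N, hN⟩ := (hA.image f).bddAbove
    refine ⟨N, fun m hm => ?_⟩
    rintro _ ⟨Y, hY, rfl⟩
    exact hf Y hY m ((hN ⟨Y, hY, rfl⟩).trans hm)
  obtain ⟨n, hn⟩ := key hA oA fB
  obtain ⟨n', hn'⟩ := key hB oB fA
  exact ⟨max n n', Set.Subset.antisymm (hn _ (le_max_left _ _)) (hn' _ (le_max_right _ _))⟩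

theorem WEq.refl (e : ℕ) (X : R) : WEq e X X := ⟨TuringReducible.refl _, TuringReducible.refl _⟩

theorem WEq.symm {e : ℕ} {X Y : R} (h : WEq e X Y) : WEq e Y X := ⟨h.2, h.1⟩

theorem WEq.trans {e : ℕ} {X Y Z : R} (h : WEq e X Y) (h' : WEq e Y Z) : WEq e X Z :=
  ⟨TuringReducible.trans h.1 h'.1, TuringReducible.trans h'.2 h.2⟩

/-! Relations on labelled oracles. -/

theorem US.shift {α : Type} [Primcodable α] {P : R → α → Prop} (hP : US P) :
    US fun O (x : ℕ × α) => P (fun j => O (x.1 + j)) x.2 := by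
  obtain ⟨E, hE, mE, eE⟩ := hP
  have hpre : ∀ (O : R) (n s : ℕ), pre (fun j => O (n + j)) s = (pre O (n + s)).drop n := by
    intro O n s
    refine List.ext_getElem (by simp) fun i h1 h2 => ?_
    rw [getElem_pre, List.getElem_drop, getElem_pre]
  refine ⟨fun x => E (x.1.drop x.2.1, x.2.2), hE.comp ?_, fun σ τ a h h2 => ?_, fun O a => ?_⟩
  · exact (Primrec.list_drop.comp (Primrec.fst.comp Primrec.snd) Primrec.fst).pair
      (Primrec.snd.comp Primrec.snd)
  · obtain ⟨ρ, rfl⟩ := h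
    refine mE _ _ _ ?_ h2
    rw [List.drop_append]
    exact ⟨_, rfl⟩
  · refine (eE _ _).trans ?_
    constructor
    · rintro ⟨s, hs⟩
      refine ⟨a.1 + s, ?_⟩
      show E ((pre O (a.1 + s)).drop a.1, a.2)
      rw [← hpre]
      exact hs
    · rintro ⟨s, hs⟩
      refine ⟨s, ?_⟩
      rw [hpre]
      refine mE _ _ _ ?_ hs
      obtain ⟨ρ, hρ⟩ := pre_prefix O (m := s) (n := a.1 + s) (by omega)
      rw [← hρ, List.drop_append]
      exact ⟨_, rfl⟩

/-- the label of the oracle is `n` -/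
def LabIs (O : R) (n : ℕ) : Prop := (∀ j < n, O j = false) ∧ O n = true

theorem us_labIs : US LabIs := by
  refine US.and (US.all_lt (P := fun O (_ : ℕ) j => O j = false) (f := fun n => n) ?_ Primrec.id) ?_
  · exact (US.query).comp (f := fun x : ℕ × ℕ => (x.2, false)) (Primrec.snd.pair (Primrec.const _))
  · exact (US.query).comp (f := fun x : ℕ => (x, true)) (Primrec.id.pair (Primrec.const _))

theorem labIs_lab {n m : ℕ} {X : R} : LabIs (lab n X) m ↔ m = n := by
  unfold LabIs lab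
  constructor
  · rintro ⟨h1, h2⟩
    rcases lt_trichotomy m n with h | h | h
    · simp [h] at h2
    · exact h
    · have := h1 n h
      simp at this
  · rintro rfl
    exact ⟨fun j hj => by simp [hj], by simp⟩

theorem shift_lab (n : ℕ) (X : R) : (fun j => lab n X (n + 1 + j)) = X := by
  funext j
  unfold lab
  rw [if_neg (by omega), if_neg (by omega)]
  congr 1
  omega

theorem pp_wd (L : ℕ) : PrimrecPred fun w : List ℕ => Wd L w :=
  PP.all_mem (α := List ℕ) (f := fun w => w) (p := fun _ c => c < L)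
    (Primrec.nat_lt.comp Primrec.snd (Primrec.const L)) Primrec.id

/-- the data with number `c` -/
def dc {α : Type} [Primcodable α] (d : α) (c : ℕ) : α := (decode (α := α) c).getD d

theorem pf_dc {α : Type} [Primcodable α] (d : α) : Primrec (dc d) :=
  Primrec.option_getD.comp Primrec.decode (Primrec.const d)

theorem dc_encode {α : Type} [Primcodable α] (d a : α) : dc d (encode a) = a := by
  simp [dc]

/-- the relation for the radius -/
def PB (L : ℕ) (PE : R → Code × ℕ × List ℕ → Prop) (O : R) (x : ℕ × ℕ) : Prop :=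
  ∃ a : Code, LabIs O (encode a) ∧
    (¬ Wd L (dc [] x.2) ∨ PE (fun j => O (encode a + 1 + j)) (a, x.1, dc [] x.2))

theorem us_PB (L : ℕ) {PE : R → Code × ℕ × List ℕ → Prop} (h : US PE) : US (PB L PE) := by
  refine US.ex (P := fun O (x : ℕ × ℕ) (a : Code) => LabIs O (encode a) ∧
    (¬ Wd L (dc [] x.2) ∨ PE (fun j => O (encode a + 1 + j)) (a, x.1, dc [] x.2))) ?_
  have g0 : Primrec fun x : (ℕ × ℕ) × Code => (dc [] x.1.2 : List ℕ) :=
    (pf_dc []).comp (Primrec.snd.comp Primrec.fst)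
  refine US.and (us_labIs.comp (Primrec.encode.comp Primrec.snd)) (US.or (US.of_prim ?_) ?_)
  · exact PrimrecPred.not ((pp_wd L).comp g0)
  · refine (US.shift h).comp (f := fun x : (ℕ × ℕ) × Code =>
      (encode x.2 + 1, (x.2, x.1.1, (dc [] x.1.2 : List ℕ)))) ?_
    exact (Primrec.succ.comp (Primrec.encode.comp Primrec.snd)).pair
      (Primrec.snd.pair ((Primrec.fst.comp Primrec.fst).pair g0))

theorem PB_iff {L : ℕ} {T : ℕ → R → R} {PE : R → Code × ℕ × List ℕ → Prop}
    (hPE : ∀ (a : Code) (Y : R), Dec L T a Y → ∀ (b : ℕ) (u : List ℕ), Wd L u →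
      (PE Y (a, b, u) ↔ ∃ Z ∈ Ball L T b Y, Feq L T (act T u Y) Z))
    {a : Code} {X : R} (hX : Dec L T a X) (b : ℕ) :
    (∀ c, PB L PE (lab (encode a) X) (b, c)) ↔ Full L T X (Ball L T b X) := by
  constructor
  · intro h u hu
    obtain ⟨a', h1, h2⟩ := h (encode u)
    rw [labIs_lab] at h1
    have h3 := Encodable.encode_injective h1
    subst h3
    simp only [dc_encode, shift_lab] at h2
    rcases h2 with h2 | h2
    · exact absurd hu h2
    · exact (hPE a' X hX b u hu).1 h2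
  · intro h c
    refine ⟨a, labIs_lab.2 rfl, ?_⟩
    simp only [shift_lab]
    by_cases hu : Wd L (dc [] c)
    · exact Or.inr ((hPE a X hX b _ hu).2 (h _ hu))
    · exact Or.inl hu

/-- the relation for the stabilizer -/
def PA (L : ℕ) (T : ℕ → R → R) (X : R) (x : ℕ × ℕ) : Prop :=
  ¬ Wd L (dc (([], [], 0) : List ℕ × List ℕ × ℕ) x.2).1 ∨
  ¬ Wd L (dc (([], [], 0) : List ℕ × List ℕ × ℕ) x.2).2.1 ∨
  (1 ∈ (Denumerable.ofNat Code x.1).eval (encode (dc (([], [], 0) : List ℕ × List ℕ × ℕ) x.2).1) ∧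
    act T ((dc (([], [], 0) : List ℕ × List ℕ × ℕ) x.2).1 ++
      (dc (([], [], 0) : List ℕ × List ℕ × ℕ) x.2).2.1) X
      (dc (([], [], 0) : List ℕ × List ℕ × ℕ) x.2).2.2 =
    act T (dc (([], [], 0) : List ℕ × List ℕ × ℕ) x.2).2.1 X
      (dc (([], [], 0) : List ℕ × List ℕ × ℕ) x.2).2.2) ∨
  (0 ∈ (Denumerable.ofNat Code x.1).eval (encode (dc (([], [], 0) : List ℕ × List ℕ × ℕ) x.2).1) ∧
    ∃ j, act T ((dc (([], [], 0) : List ℕ × List ℕ × ℕ) x.2).1 ++
      (dc (([], [], 0) : List ℕ × List ℕ × ℕ) x.2).2.1) X j ≠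
    act T (dc (([], [], 0) : List ℕ × List ℕ × ℕ) x.2).2.1 X j)

theorem s1_mem_eval : S1 fun x : Code × ℕ × ℕ => x.2.2 ∈ x.1.eval x.2.1 := by
  have h : S1 fun x : Code × ℕ × ℕ => ∃ k, Code.evaln k x.1 x.2.1 = some x.2.2 := by
    refine S1.ex (p := fun (x : Code × ℕ × ℕ) k => Code.evaln k x.1 x.2.1 = some x.2.2)
      (S1.of_prim ?_)
    refine Primrec.eq.comp (Code.primrec_evaln.comp ((Primrec.snd.pair
      (Primrec.fst.comp Primrec.fst)).pair
      (Primrec.fst.comp (Primrec.snd.comp Primrec.fst))))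
      (Primrec.option_some.comp (Primrec.snd.comp (Primrec.snd.comp Primrec.fst)))
  refine h.of_eq fun x => ?_
  rw [Code.evaln_complete]
  exact exists_congr fun k => Iff.rfl

theorem us_PA {ps : List Code} {L : ℕ} {T : ℕ → R → R} (h1 : S_ACT) (hA : Acts ps L T) :
    US (PA L T) := by
  have hD := h1 ps L T hA
  have gd : Primrec fun x : ℕ × ℕ => dc (([], [], 0) : List ℕ × List ℕ × ℕ) x.2 :=
    (pf_dc _).comp Primrec.snd
  have gw : Primrec fun x : ℕ × ℕ => (dc (([], [], 0) : List ℕ × List ℕ × ℕ) x.2).1 :=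
    Primrec.fst.comp gd
  have gu : Primrec fun x : ℕ × ℕ => (dc (([], [], 0) : List ℕ × List ℕ × ℕ) x.2).2.1 :=
    Primrec.fst.comp (Primrec.snd.comp gd)
  have gj : Primrec fun x : ℕ × ℕ => (dc (([], [], 0) : List ℕ × List ℕ × ℕ) x.2).2.2 :=
    Primrec.snd.comp (Primrec.snd.comp gd)
  have ge : ∀ v : ℕ, US fun (_ : R) (x : ℕ × ℕ) => v ∈ (Denumerable.ofNat Code x.1).eval
      (encode (dc (([], [], 0) : List ℕ × List ℕ × ℕ) x.2).1) := fun v =>
    US.of_s1 (s1_mem_eval.comp (f := fun x : ℕ × ℕ => (Denumerable.ofNat Code x.1,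
      encode (dc (([], [], 0) : List ℕ × List ℕ × ℕ) x.2).1, v))
      (((Primrec.ofNat Code).comp Primrec.fst).pair
        ((Primrec.encode.comp gw).pair (Primrec.const v))))
  have key : US fun X (x : ℕ × ℕ) =>
      ¬ Wd L (dc (([], [], 0) : List ℕ × List ℕ × ℕ) x.2).1 ∨
      ¬ Wd L (dc (([], [], 0) : List ℕ × List ℕ × ℕ) x.2).2.1 ∨
      (1 ∈ (Denumerable.ofNat Code x.1).eval
        (encode (dc (([], [], 0) : List ℕ × List ℕ × ℕ) x.2).1) ∧
        ∃ b : Bool, (Wd L ((dc (([], [], 0) : List ℕ × List ℕ × ℕ) x.2).1 ++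
          (dc (([], [], 0) : List ℕ × List ℕ × ℕ) x.2).2.1) ∧
          act T ((dc (([], [], 0) : List ℕ × List ℕ × ℕ) x.2).1 ++
          (dc (([], [], 0) : List ℕ × List ℕ × ℕ) x.2).2.1) X
          (dc (([], [], 0) : List ℕ × List ℕ × ℕ) x.2).2.2 = b) ∧
          (Wd L (dc (([], [], 0) : List ℕ × List ℕ × ℕ) x.2).2.1 ∧
          act T (dc (([], [], 0) : List ℕ × List ℕ × ℕ) x.2).2.1 X
          (dc (([], [], 0) : List ℕ × List ℕ × ℕ) x.2).2.2 = b)) ∨
      (0 ∈ (Denumerable.ofNat Code x.1).eval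
        (encode (dc (([], [], 0) : List ℕ × List ℕ × ℕ) x.2).1) ∧
        ∃ y : ℕ × Bool, (Wd L ((dc (([], [], 0) : List ℕ × List ℕ × ℕ) x.2).1 ++
          (dc (([], [], 0) : List ℕ × List ℕ × ℕ) x.2).2.1) ∧
          act T ((dc (([], [], 0) : List ℕ × List ℕ × ℕ) x.2).1 ++
          (dc (([], [], 0) : List ℕ × List ℕ × ℕ) x.2).2.1) X y.1 = y.2) ∧
          (Wd L (dc (([], [], 0) : List ℕ × List ℕ × ℕ) x.2).2.1 ∧
          act T (dc (([], [], 0) : List ℕ × List ℕ × ℕ) x.2).2.1 X y.1 = !y.2)) := by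
    have ap : Primrec fun x : ℕ × ℕ => (dc (([], [], 0) : List ℕ × List ℕ × ℕ) x.2).1 ++
        (dc (([], [], 0) : List ℕ × List ℕ × ℕ) x.2).2.1 := Primrec.list_append.comp gw gu
    refine US.or (US.of_prim (PrimrecPred.not ((pp_wd L).comp gw)))
      (US.or (US.of_prim (PrimrecPred.not ((pp_wd L).comp gu))) (US.or
        (US.and (ge 1) (US.ex (US.and ?_ ?_))) (US.and (ge 0) (US.ex (US.and ?_ ?_)))))
    · exact hD.comp (f := fun y : (ℕ × ℕ) × Bool =>
        ((dc (([], [], 0) : List ℕ × List ℕ × ℕ) y.1.2).1 ++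
          (dc (([], [], 0) : List ℕ × List ℕ × ℕ) y.1.2).2.1,
          (dc (([], [], 0) : List ℕ × List ℕ × ℕ) y.1.2).2.2, y.2))
        ((ap.comp Primrec.fst).pair ((gj.comp Primrec.fst).pair Primrec.snd))
    · exact hD.comp (f := fun y : (ℕ × ℕ) × Bool =>
        ((dc (([], [], 0) : List ℕ × List ℕ × ℕ) y.1.2).2.1,
          (dc (([], [], 0) : List ℕ × List ℕ × ℕ) y.1.2).2.2, y.2))
        ((gu.comp Primrec.fst).pair ((gj.comp Primrec.fst).pair Primrec.snd))
    · exact hD.comp (f := fun y : (ℕ × ℕ) × (ℕ × Bool) =>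
        ((dc (([], [], 0) : List ℕ × List ℕ × ℕ) y.1.2).1 ++
          (dc (([], [], 0) : List ℕ × List ℕ × ℕ) y.1.2).2.1, y.2.1, y.2.2))
        ((ap.comp Primrec.fst).pair ((Primrec.fst.comp Primrec.snd).pair
          (Primrec.snd.comp Primrec.snd)))
    · exact hD.comp (f := fun y : (ℕ × ℕ) × (ℕ × Bool) =>
        ((dc (([], [], 0) : List ℕ × List ℕ × ℕ) y.1.2).2.1, y.2.1, !y.2.2))
        ((gu.comp Primrec.fst).pair ((Primrec.fst.comp Primrec.snd).pair
          (Primrec.not.comp (Primrec.snd.comp Primrec.snd))))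
  refine key.of_eq fun X x => ?_
  unfold PA
  generalize dc (([], [], 0) : List ℕ × List ℕ × ℕ) x.2 = d
  obtain ⟨w, u, j⟩ := d
  simp only
  by_cases hw : Wd L w
  · by_cases hu : Wd L u
    · have hwu := wd_append hw hu
      simp only [hw, hu, hwu, not_true_eq_false, false_or, true_and]
      refine or_congr (and_congr_right fun _ => ?_) (and_congr_right fun _ => ?_)
      · exact ⟨fun ⟨b, h1, h2⟩ => h1.trans h2.symm, fun h => ⟨_, h, rfl⟩⟩
      · constructor
        · rintro ⟨⟨i, b⟩, h1, h2⟩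
          refine ⟨i, ?_⟩
          simp only at h1 h2
          rw [h1, h2]
          cases b <;> simp
        · rintro ⟨i, hi⟩
          refine ⟨(i, act T (w ++ u) X i), rfl, ?_⟩
          simp only
          cases h3 : act T (w ++ u) X i <;> cases h4 : act T u X i <;> simp [h3, h4] at hi ⊢
    · simp [hu]
  · simp [hw]

theorem PA_iff {L : ℕ} {T : ℕ → R → R} {X : R} {q : ℕ} :
    (∀ c, PA L T X (q, c)) ↔ Dec L T (Denumerable.ofNat Code q) X := by
  classical
  constructor
  · intro h w u hw hu v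
    have h1 : ∀ j, (1 ∈ (Denumerable.ofNat Code q).eval (encode w) ∧
        act T w (act T u X) j = act T u X j) ∨
        (0 ∈ (Denumerable.ofNat Code q).eval (encode w) ∧
        ∃ j, act T w (act T u X) j ≠ act T u X j) := by
      intro j
      have h2 := h (encode ((w, u, j) : List ℕ × List ℕ × ℕ))
      unfold PA at h2
      simp only [dc_encode, act_append] at h2
      rcases h2 with h2 | h2 | h2
      · exact absurd hw h2
      · exact absurd hu h2
      · exact h2
    by_cases h3 : 1 ∈ (Denumerable.ofNat Code q).eval (encode w)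
    · have h4 : 0 ∉ (Denumerable.ofNat Code q).eval (encode w) := fun h5 =>
        absurd (Part.mem_unique h3 h5) one_ne_zero
      have h5 : act T w (act T u X) = act T u X := by
        funext j
        rcases h1 j with h6 | h6
        · exact h6.2
        · exact absurd h6.1 h4
      rw [if_pos h5]
      exact ⟨fun h6 => Part.mem_unique h6 h3, fun h6 => h6 ▸ h3⟩
    · obtain ⟨h4, j, h5⟩ : 0 ∈ (Denumerable.ofNat Code q).eval (encode w) ∧
          ∃ j, act T w (act T u X) j ≠ act T u X j := by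
        rcases h1 0 with h6 | h6
        · exact absurd h6.1 h3
        · exact h6
      rw [if_neg (fun h6 => h5 (by rw [h6]))]
      exact ⟨fun h6 => Part.mem_unique h6 h4, fun h6 => h6 ▸ h4⟩
  · intro h c
    unfold PA
    generalize dc (([], [], 0) : List ℕ × List ℕ × ℕ) (q, c).2 = d
    obtain ⟨w, u, j⟩ := d
    simp only [act_append]
    by_cases hw : Wd L w
    · by_cases hu : Wd L u
      · right; right
        by_cases he : act T w (act T u X) = act T u X
        · left
          refine ⟨(h w u hw hu 1).2 (by rw [if_pos he]), by rw [he]⟩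
        · right
          refine ⟨(h w u hw hu 0).2 (by rw [if_neg he]), ?_⟩
          by_contra hc
          push Not at hc
          exact he (funext hc)
      · exact Or.inr (Or.inl hu)
    · exact Or.inl hw

theorem exists_lab (h0 : S_PROG) : ∃ p : ℕ → Code, Primrec p ∧ ∀ n X, Via (p n) X (lab n X) := by
  obtain ⟨p, hp, h⟩ := h0 ℕ (fun X x => (x.2.1 < x.1 ∧ x.2.2 = false) ∨
    (x.2.1 = x.1 ∧ x.2.2 = true) ∨ (x.1 < x.2.1 ∧ X (x.2.1 - x.1 - 1) = x.2.2)) (by
    have g1 : Primrec fun x : ℕ × ℕ × Bool => x.2.1 := Primrec.fst.comp Primrec.snd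
    have g2 : Primrec fun x : ℕ × ℕ × Bool => x.2.2 := Primrec.snd.comp Primrec.snd
    refine US.or (US.of_prim (PrimrecPred.and (Primrec.nat_lt.comp g1 Primrec.fst)
      (Primrec.eq.comp g2 (Primrec.const false)))) (US.or (US.of_prim (PrimrecPred.and
      (Primrec.eq.comp g1 Primrec.fst) (Primrec.eq.comp g2 (Primrec.const true))))
      (US.and (US.of_prim (Primrec.nat_lt.comp Primrec.fst g1)) ?_))
    exact US.query.comp (f := fun x : ℕ × ℕ × Bool => (x.2.1 - x.1 - 1, x.2.2))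
      ((Primrec.nat_sub.comp (Primrec.nat_sub.comp g1 Primrec.fst) (Primrec.const 1)).pair g2))
  refine ⟨p, hp, fun n X => h n X (lab n X) fun m b => ?_⟩
  unfold lab
  simp only
  rcases lt_trichotomy m n with h1 | h1 | h1
  · have e1 : ¬ m = n := by omega
    have e2 : ¬ n < m := by omega
    simp [h1, e1, e2, eq_comm]
  · subst h1
    simp [eq_comm]
  · have e1 : ¬ m = n := by omega
    have e2 : ¬ m < n := by omega
    simp [h1, e1, e2]

/-- The operator on labelled oracles: the label is a program which decides the stabilizer. -/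
theorem inner (h2 : S_PATCH) (h3 : S_CNT) (h4 : S_FULL)
    (h6 : S_EQ) (h7 : S_STEP) (h8 : S_BACK) (h9 : S_INIT) (h10 : S_DEG)
    (ps : List Code) (L : ℕ) (T : ℕ → R → R) (K : ℕ) (hA : Acts ps L T) (hK : Packed L T K) :
    ∃ e e1 : ℕ, (∀ n X, PostV (chr (WE (lab n X) e)) X) ∧ ∀ (a : Code) (X : R), Dec L T a X →
      PostV (chr (WE (lab (encode a) X) e1)) X ∧
        ∀ c < L, WEq e1 (lab (encode a) X) (lab (encode a) (T c X)) := by
  classical
  obtain ⟨k, hk, ktot, hback⟩ := h8 ps L T hA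
  obtain ⟨e, he1, he2⟩ := Pool.Agent.TH769.FB.final_all k hk ktot
  obtain ⟨I, pI, hI⟩ := h7 ps L T hA
  obtain ⟨J, pJ, hJ⟩ := h9 ps L T hA I pI
  -- the chain
  have chain : ∀ (a : Code) (X : R), Dec L T a X → ∀ A : Set R, A.Finite → A.Nonempty →
      (∀ Y ∈ A, InOrb L T X Y) → ∀ n, WEq e (lab (encode (I a)) (lab 0 (Zt A)))
        (lab (encode (I a)) (lab n (Zt (sn L T n '' A)))) := by
    intro a X hX A fA nA oA n
    induction n with
    | zero =>
      have : sn L T 0 '' A = A := Set.image_id' A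
      rw [this]
      exact WEq.refl _ _
    | succ n ih =>
      refine ih.trans ?_
      have o' : ∀ m, ∀ Y ∈ sn L T m '' A, InOrb L T X Y := by
        rintro m _ ⟨Y, hY, rfl⟩
        exact (oA Y hY).trans (inOrb_sn m Y)
      have g1 := hI a X hX n (sn L T n '' A) (fA.image _) (nA.image _) (o' n)
      rw [image_sn_succ] at g1
      obtain ⟨c, hc⟩ := hback n X (sn L T n '' A) (sn L T (n + 1) '' A) (fA.image _)
        (nA.image _) (o' n) (fA.image _) (nA.image _) (o' (n + 1))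
      exact he2 (I a) _ _ g1 (Or.inl ⟨c, hc⟩)
  have chain2 : ∀ (a : Code) (X : R), Dec L T a X → ∀ A B : Set R, A.Finite → A.Nonempty →
      (∀ Y ∈ A, InOrb L T X Y) → B.Finite → B.Nonempty → (∀ Y ∈ B, InOrb L T X Y) →
      Full L T X A → Full L T X B → WEq e (lab (encode (I a)) (lab 0 (Zt A)))
        (lab (encode (I a)) (lab 0 (Zt B))) := by
    intro a X hX A B fA nA oA fB nB oB uA uB
    obtain ⟨n, hn⟩ := full_eq fA fB oA oB uA uB
    have g1 := chain a X hX A fA nA oA n
    have g2 := chain a X hX B fB nB oB n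
    rw [hn] at g1
    exact g1.trans g2.symm
  obtain ⟨PE, uPE, hPE⟩ := h6 ps L T hA
  obtain ⟨QB, pQB, cQB, iQB⟩ := h3 _ (us_PB L uPE)
  obtain ⟨e1, he3⟩ := h2 e J QB pJ pQB cQB
  have rep : ∀ (a : Code) (X : R), Dec L T a X → ∃ b : ℕ, Full L T X (Ball L T b X) ∧
      TLe (chr (WE (lab (encode a) X) e1))
        (chr (WE (lab (encode (I a)) (lab 0 (Zt (Ball L T b X)))) e)) ∧
      TLe (chr (WE (lab (encode (I a)) (lab 0 (Zt (Ball L T b X)))) e))
        (chr (WE (lab (encode a) X) e1)) := by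
    intro a X hq
    have hb' := h4 ps L T K hA hK X
    have hb := Nat.find_spec hb'
    have hbmin : ∀ b' < Nat.find hb', ¬ Full L T X (Ball L T b' X) :=
      fun b' h' => Nat.find_min hb' h'
    generalize Nat.find hb' = b at hb hbmin
    have oB : ∀ Y ∈ Ball L T b X, InOrb L T X Y := fun Y hY => near.inOrb hY
    obtain ⟨d1, d2⟩ := h10 ps L T hA X _ (ball_finite b X) (ball_nonempty b X) oB
    obtain ⟨x1, -, -, -, -⟩ := he1 (encode (I a)) (lab 0 (Zt (Ball L T b X)))
    have z1 : TLe X (lab (encode (I a)) (lab 0 (Zt (Ball L T b X)))) :=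
      TuringReducible.trans d1 (TuringReducible.trans (le_lab 0 _) (le_lab _ _))
    have z2 : TLe (lab (encode (I a)) (lab 0 (Zt (Ball L T b X))))
        (chr (WE (lab (encode (I a)) (lab 0 (Zt (Ball L T b X)))) e)) :=
      TuringReducible.trans (lab_le _ _) x1
    have s1 := he3 (lab (encode a) X) b _
      ((iQB _ _).2 ⟨b, Nat.lt_succ_self b, (PB_iff hPE hq b).2 hb⟩)
      (fun h => by
        obtain ⟨b', h', h''⟩ := (iQB _ _).1 h
        exact hbmin b' h' ((PB_iff hPE hq b').1 h''))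
      (hJ b a X) (TuringReducible.trans (lab_le _ _) z1) z2
    exact ⟨b, hb, s1⟩
  refine ⟨e, e1, he1, fun a X hX => ⟨?_, fun c hc => ?_⟩⟩
  · obtain ⟨b, hb, r1, r2⟩ := rep a X hX
    have oB : ∀ Y ∈ Ball L T b X, InOrb L T X Y := fun Y hY => near.inOrb hY
    obtain ⟨d1, d2⟩ := h10 ps L T hA X _ (ball_finite b X) (ball_nonempty b X) oB
    exact PostV.congr (he1 (encode (I a)) (lab 0 (Zt (Ball L T b X)))) r1 r2
      (TuringReducible.trans d1 (le_lab 0 _)) (TuringReducible.trans (lab_le 0 _) d2)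
  · have oXY : InOrb L T X (T c X) := ⟨[c], wd_cons hc wd_nil, rfl⟩
    obtain ⟨b, hb, r1, r2⟩ := rep a X hX
    obtain ⟨b', hb', r1', r2'⟩ := rep a (T c X) (hX.of_inOrb oXY)
    have h := chain2 a X hX (Ball L T b X) (Ball L T b' (T c X)) (ball_finite _ _)
      (ball_nonempty _ _) (fun Y hY => near.inOrb hY) (ball_finite _ _) (ball_nonempty _ _)
      (fun Y hY => oXY.trans (near.inOrb hY)) hb (hb'.of_inOrb (oXY.symm hA))
    exact ⟨TuringReducible.trans r1 (TuringReducible.trans h.1 r2'),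
      TuringReducible.trans r1' (TuringReducible.trans h.2 r2)⟩

/-- The general theorem: there is an operator which solves Post's problem, and is invariant, at all
points whose stabilizer is computable and is the stabilizer of all points of the orbit. -/
theorem main_gen (h0 : S_PROG) (h1 : S_ACT) (h2 : S_PATCH) (h3 : S_CNT) (h4 : S_FULL)
    (h6 : S_EQ) (h7 : S_STEP) (h8 : S_BACK) (h9 : S_INIT) (h10 : S_DEG)
    (ps : List Code) (L : ℕ) (T : ℕ → R → R) (K : ℕ) (hA : Acts ps L T) (hK : Packed L T K) :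
    ∃ e : ℕ, ∀ X : R, (∃ a : Code, Dec L T a X) →
      PostAt e X ∧ ∀ c < L, WEq e X (T c X) := by
  classical
  obtain ⟨-, e1, -, he1⟩ := inner h2 h3 h4 h6 h7 h8 h9 h10 ps L T K hA hK
  obtain ⟨QA, pQA, cQA, iQA⟩ := h3 _ (us_PA h1 hA)
  obtain ⟨p, hp, hlab⟩ := exists_lab h0
  obtain ⟨e2, he4⟩ := h2 e1 p QA hp pQA cQA
  have rep : ∀ X : R, (∃ a : Code, Dec L T a X) → ∃ a : Code, Dec L T a X ∧
      (∀ a', Dec L T a' X → encode a ≤ encode a') ∧
      TLe (chr (WE X e2)) (chr (WE (lab (encode a) X) e1)) ∧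
      TLe (chr (WE (lab (encode a) X) e1)) (chr (WE X e2)) := by
    intro X hX
    have hX' : ∃ q, Dec L T (Denumerable.ofNat Code q) X := by
      obtain ⟨a, ha⟩ := hX
      exact ⟨encode a, by rwa [Denumerable.ofNat_encode]⟩
    have hq := Nat.find_spec hX'
    have hmin : ∀ q' < Nat.find hX', ¬ Dec L T (Denumerable.ofNat Code q') X :=
      fun q' h' => Nat.find_min hX' h'
    generalize Nat.find hX' = q at hq hmin
    obtain ⟨a, ha⟩ : ∃ a : Code, encode a = q :=
      ⟨Denumerable.ofNat Code q, Denumerable.encode_ofNat q⟩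
    subst ha
    rw [Denumerable.ofNat_encode] at hq
    have s2 := he4 X (encode a) (lab (encode a) X)
      ((iQA _ _).2 ⟨encode a, Nat.lt_succ_self _, PA_iff.2 (by rwa [Denumerable.ofNat_encode])⟩)
      (fun h => by
        obtain ⟨q', h', h''⟩ := (iQA _ _).1 h
        exact hmin q' h' (PA_iff.1 h''))
      (hlab _ _) (le_lab _ _) (TuringReducible.trans (lab_le _ _) (he1 a X hq).1.1)
    refine ⟨a, hq, fun a' ha' => ?_, s2⟩
    by_contra hc
    exact hmin (encode a') (by omega) (by rwa [Denumerable.ofNat_encode])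
  refine ⟨e2, fun X hX => ⟨?_, fun c hc => ?_⟩⟩
  · obtain ⟨a, ha, -, r1, r2⟩ := rep X hX
    exact (he1 a X ha).1.congr r1 r2 (TuringReducible.refl _) (TuringReducible.refl _)
  · have oXY : InOrb L T X (T c X) := ⟨[c], wd_cons hc wd_nil, rfl⟩
    have hY : ∃ a : Code, Dec L T a (T c X) := by
      obtain ⟨a, ha⟩ := hX
      exact ⟨a, ha.of_inOrb oXY⟩
    obtain ⟨a, ha, hm, r1, r2⟩ := rep X hX
    obtain ⟨a', ha', hm', r1', r2'⟩ := rep (T c X) hY
    have haa : a = a' := by
      refine Encodable.encode_injective (le_antisymm (hm a' (ha'.of_inOrb (oXY.symm hA)))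
        (hm' a (ha.of_inOrb oXY)))
    subst haa
    have h := (he1 a X ha).2 c hc
    exact ⟨TuringReducible.trans r1 (TuringReducible.trans h.1 r2'),
      TuringReducible.trans r1' (TuringReducible.trans h.2 r2)⟩

/-! Indices. -/

/-- A uniformly semi-decidable set is given by an index. -/
theorem US.index {P : R → ℕ → Prop} (hP : US P) : ∃ e : ℕ, ∀ X, WE X e = {n | P X n} := by
  obtain ⟨E, hE, mE, eE⟩ := hP
  obtain ⟨c, hc⟩ := Nat.Partrec.Code.exists_code.1 hE.re
  refine ⟨encode c, fun X => ?_⟩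
  ext n
  simp only [WE, Set.mem_ofPred_eq, Denumerable.ofNat_encode]
  rw [eE]
  refine exists_congr fun k => ?_
  rw [hc]
  simp [Part.assert, pre]

theorem us_WE (e : ℕ) : US fun X n => n ∈ WE X e := by
  refine ⟨fun x => ∃ k < x.1.length + 1,
    ((Denumerable.ofNat Code e).eval (encode (x.1.take k, x.2))).Dom, ?_, ?_, ?_⟩
  · have h := S1.ex (p := fun (x : List Bool × ℕ) (k : ℕ) => k < x.1.length + 1 ∧
      ((Denumerable.ofNat Code e).eval (encode (x.1.take k, x.2))).Dom) (S1.and (S1.of_prim ?_) ?_)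
    · exact h.of_eq fun x => Iff.rfl
    · exact Primrec.nat_lt.comp Primrec.snd
        (Primrec.succ.comp (Primrec.list_length.comp (Primrec.fst.comp Primrec.fst)))
    · refine s1_eval.comp (f := fun x : (List Bool × ℕ) × ℕ =>
        (Denumerable.ofNat Code e, encode (x.1.1.take x.2, x.1.2))) ?_
      exact (Primrec.const _).pair (Primrec.encode.comp ((Primrec.list_take.comp Primrec.snd
        (Primrec.fst.comp Primrec.fst)).pair (Primrec.snd.comp Primrec.fst)))
  · rintro σ τ n ⟨ρ, rfl⟩ ⟨k, hk, h⟩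
    refine ⟨k, ?_, ?_⟩
    · simp only [List.length_append]
      simp only at hk
      omega
    · simp only at hk h ⊢
      rwa [List.take_append_of_le_length (by omega)]
  · intro X n
    simp only [WE, Set.mem_ofPred_eq]
    constructor
    · rintro ⟨k, hk⟩
      refine ⟨k, k, by simp, ?_⟩
      rw [take_pre _ _ _ le_rfl]
      exact hk
    · rintro ⟨s, k, hk, h⟩
      rw [length_pre] at hk
      rw [take_pre _ _ _ (by omega)] at h
      exact ⟨k, h⟩

/-- Two operators are glued together. -/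
theorem exists_glue (e e' : ℕ) : ∃ d : ℕ, ∀ X, WE (lab 0 X) d = WE X e ∧ WE (lab 1 X) d = WE X e' := by
  have h1 : US fun O (n : ℕ) => (LabIs O 0 ∧ n ∈ WE (fun j => O (1 + j)) e) ∨
      (LabIs O 1 ∧ n ∈ WE (fun j => O (2 + j)) e') := by
    refine US.or (US.and ?_ ?_) (US.and ?_ ?_)
    · exact us_labIs.comp (Primrec.const 0)
    · exact (US.shift (us_WE e)).comp (f := fun n : ℕ => (1, n))
        ((Primrec.const 1).pair Primrec.id)
    · exact us_labIs.comp (Primrec.const 1)
    · exact (US.shift (us_WE e')).comp (f := fun n : ℕ => (2, n))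
        ((Primrec.const 2).pair Primrec.id)
  obtain ⟨d, hd⟩ := h1.index
  refine ⟨d, fun X => ⟨?_, ?_⟩⟩
  · rw [hd]
    ext n
    have e1 := shift_lab 0 X
    simp only [zero_add] at e1
    simp only [Set.mem_ofPred_eq, labIs_lab, e1, true_and, one_ne_zero, false_and, or_false]
  · rw [hd]
    ext n
    have e1 := shift_lab 1 X
    norm_num at e1
    simp only [Set.mem_ofPred_eq, labIs_lab, e1, true_and, zero_ne_one, false_and, false_or]

theorem US.lab {α : Type} [Primcodable α] {P : R → α → Prop} (hP : US P) (n : ℕ) :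
    US fun X a => P (lab n X) a := by
  obtain ⟨E, hE, mE, eE⟩ := hP
  refine ⟨fun x => E (List.replicate n false ++ true :: x.1, x.2), hE.comp ?_,
    fun σ τ a h h2 => mE _ _ _ ?_ h2, fun X a => (eE _ _).trans ⟨?_, ?_⟩⟩
  · exact (Primrec.list_append.comp (Primrec.const _)
      (Primrec.list_cons.comp (Primrec.const true) Primrec.fst)).pair Primrec.snd
  · obtain ⟨ρ, rfl⟩ := h
    exact ⟨ρ, by simp⟩
  · rintro ⟨s, hs⟩
    refine ⟨s, ?_⟩
    show E (List.replicate n false ++ true :: pre X s, a)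
    rw [← Pool.Agent.TH769.TP.pre_lab]
    exact mE _ _ _ (pre_prefix _ (by omega)) hs
  · rintro ⟨s, hs⟩
    refine ⟨n + 1 + s, ?_⟩
    rw [Pool.Agent.TH769.TP.pre_lab]
    exact hs

/-- An operator which solves Post's problem at all points, and is invariant at the points whose
stabilizer is decided by the given program. -/
theorem main_fix (h0 : S_PROG) (h1 : S_ACT) (h2 : S_PATCH) (h3 : S_CNT) (h4 : S_FULL)
    (h6 : S_EQ) (h7 : S_STEP) (h8 : S_BACK) (h9 : S_INIT) (h10 : S_DEG)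
    (ps : List Code) (L : ℕ) (T : ℕ → R → R) (K : ℕ) (hA : Acts ps L T) (hK : Packed L T K)
    (a : Code) : ∃ e : ℕ, (∀ X, PostAt e X) ∧
      ∀ X : R, Dec L T a X → ∀ c < L, WEq e X (T c X) := by
  classical
  obtain ⟨e, e1, he0, he1⟩ := inner h2 h3 h4 h6 h7 h8 h9 h10 ps L T K hA hK
  -- the operators without labels
  obtain ⟨f1, hf1⟩ := ((us_WE e1).lab (encode a)).index
  obtain ⟨f0, hf0⟩ := ((us_WE e).lab 0).index
  have hf1' : ∀ X, WE X f1 = WE (lab (encode a) X) e1 := fun X => hf1 X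
  have hf0' : ∀ X, WE X f0 = WE (lab 0 X) e := fun X => hf0 X
  obtain ⟨d, hd⟩ := exists_glue f1 f0
  obtain ⟨p, hp, hlab⟩ := exists_lab h0
  obtain ⟨Q, pQ, cQ, iQ⟩ := h3 (fun X x => 1 ≤ x.1 ∨ PA L T X (encode a, x.2))
    (US.or (US.of_prim (Primrec.nat_le.comp (Primrec.const 1) Primrec.fst))
      ((us_PA h1 hA).comp (f := fun x : ℕ × ℕ => (encode a, x.2))
        ((Primrec.const _).pair Primrec.snd)))
  obtain ⟨e2, he2⟩ := h2 d p Q hp pQ cQ
  have yes : ∀ X, Dec L T a X → TLe (chr (WE X e2)) (chr (WE (lab (encode a) X) e1)) ∧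
      TLe (chr (WE (lab (encode a) X) e1)) (chr (WE X e2)) := by
    intro X hX
    have h := he2 X 0 (lab 0 X)
      ((iQ _ _).2 ⟨0, Nat.zero_lt_one, fun c => Or.inr (PA_iff.2 (by
        rwa [Denumerable.ofNat_encode]) c)⟩)
      (fun h => by
        obtain ⟨q', h', -⟩ := (iQ _ _).1 h
        exact Nat.not_lt_zero _ h')
      (hlab _ _) (le_lab _ _) (by
        rw [(hd X).1, hf1' X]
        exact TuringReducible.trans (lab_le _ _) (he1 a X hX).1.1)
    rwa [(hd X).1, hf1' X] at h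
  have no : ∀ X, ¬ Dec L T a X → TLe (chr (WE X e2)) (chr (WE (lab 0 X) e)) ∧
      TLe (chr (WE (lab 0 X) e)) (chr (WE X e2)) := by
    intro X hX
    have h := he2 X 1 (lab 1 X)
      ((iQ _ _).2 ⟨1, Nat.one_lt_two, fun c => Or.inl le_rfl⟩)
      (fun h => by
        obtain ⟨q', h', h''⟩ := (iQ _ _).1 h
        obtain rfl : q' = 0 := by omega
        refine hX ?_
        have h3 : Dec L T (Denumerable.ofNat Code (encode a)) X := PA_iff.1 fun c => by
          rcases h'' c with h4 | h4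
          · exact absurd h4 (by norm_num)
          · exact h4
        rwa [Denumerable.ofNat_encode] at h3)
      (hlab _ _) (le_lab _ _) (by
        rw [(hd X).2, hf0' X]
        exact TuringReducible.trans (lab_le _ _) (he0 0 X).1)
    rwa [(hd X).2, hf0' X] at h
  refine ⟨e2, fun X => ?_, fun X hX c hc => ?_⟩
  · by_cases hX : Dec L T a X
    · obtain ⟨r1, r2⟩ := yes X hX
      exact PostV.congr (he1 a X hX).1 r1 r2 (TuringReducible.refl _) (TuringReducible.refl _)
    · obtain ⟨r1, r2⟩ := no X hX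
      exact PostV.congr (he0 0 X) r1 r2 (TuringReducible.refl _) (TuringReducible.refl _)
  · have oXY : InOrb L T X (T c X) := ⟨[c], wd_cons hc wd_nil, rfl⟩
    obtain ⟨r1, r2⟩ := yes X hX
    obtain ⟨r1', r2'⟩ := yes (T c X) (hX.of_inOrb oXY)
    have h := (he1 a X hX).2 c hc
    exact ⟨TuringReducible.trans r1 (TuringReducible.trans h.1 r2'),
      TuringReducible.trans r1' (TuringReducible.trans h.2 r2)⟩

/-- The theorem for commuting homeomorphisms. -/
theorem main_comm (h0 : S_PROG) (h1 : S_ACT) (h2 : S_PATCH) (h3 : S_CNT) (h4 : S_FULL)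
    (h5 : S_COMM) (h6 : S_EQ) (h7 : S_STEP) (h8 : S_BACK) (h9 : S_INIT) (h10 : S_DEG)
    (h11 : S_DEC) (ps : List Code) (L : ℕ) (T : ℕ → R → R) (hA : Acts ps L T)
    (hc : ∀ c < L, ∀ c' < L, ∀ X, T c (T c' X) = T c' (T c X)) :
    ∃ e : ℕ, ∀ X : R, PostAt e X ∧ ∀ c < L, WEq e X (T c X) := by
  obtain ⟨K, hK⟩ := h5 ps L T hA hc
  obtain ⟨e, he⟩ := main_gen h0 h1 h2 h3 h4 h6 h7 h8 h9 h10 ps L T K hA hK
  exact ⟨e, fun X => he X (h11 ps L T hA hc X)⟩

end Pool.Agent.Q216.ZD
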