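import Pool.Agent.Q216.ZD.Base

set_option autoImplicit false

/-!
# Project ZD, second part: statements for groups of polynomial growth
-/

namespace Pool.Agent.Q216.ZD

open Encodable Pool.Agent.Helper227 Pool.Agent.H548R2.Post
open Nat.Partrec (Code)
open Pool.Agent.TH769.TP (Via lab Unb)

/-- the ball of radius `n` in a group with generators `v c`, `c < L` -/
def bal {G : Type} [Group G] (v : ℕ → G) (L n : ℕ) : Set G :=
  {g | ∃ w ∈ WL L n, (w.map v).prod = g}

/-- The inverse of a computable bijection of the Cantor space is computable. -/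
def S_INVC : Prop := ∀ (i : Code) (T : R → R), Function.Bijective T → (∀ X, Via i X (T X)) →
  ∃ j : Code, ∀ X, Via j (T X) X

/-- Groups with the doubling property (polynomial growth) have uniformly packed orbits. -/
def S_GROW : Prop := ∀ (G : Type) [Group G] [MulAction G R] (v : ℕ → G) (L : ℕ), L % 2 = 0 →
  (∀ c < L, v (c ^^^ 1) = (v c)⁻¹) →
  (∃ C : ℕ, ∀ n, Nat.card (bal v L (2 * n)) ≤ C * Nat.card (bal v L n)) →
  ∃ K, Packed L (fun c X => v c • X) K

end Pool.Agent.Q216.ZD
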