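import Pool.Agent.Q216.ZD.Fin
import Pool.Agent.Q216.ZD.Spec2

set_option autoImplicit false

/-!
From finitely many computable bijections to letters.
-/

namespace Pool.Agent.Q216.ZD

open Encodable Pool.Agent.Helper227 Pool.Agent.H548R2.Post
open Nat.Partrec (Code)
open Pool.Agent.TH769.TP (Via lab Unb)

/-- the action of the letter `c` -/
def lt {d : ℕ} (T S : Fin d → R → R) (c : ℕ) : R → R :=
  if h : c / 2 < d then (if c % 2 = 0 then T ⟨c / 2, h⟩ else S ⟨c / 2, h⟩) else id

/-- the programs of the letters -/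
def lp {d : ℕ} (i j : Fin d → Code) (c : ℕ) : Code :=
  if h : c / 2 < d then (if c % 2 = 0 then i ⟨c / 2, h⟩ else j ⟨c / 2, h⟩) else Code.zero

theorem lt_even {d : ℕ} (T S : Fin d → R → R) (c : Fin d) : lt T S (2 * (c : ℕ)) = T c := by
  unfold lt
  have h : 2 * (c : ℕ) / 2 = c := by omega
  rw [dif_pos (by rw [h]; exact c.2), if_pos (by omega)]
  congr 1
  exact Fin.ext h

theorem acts_lt {d : ℕ} {T S : Fin d → R → R} {i j : Fin d → Code}
    (hi : ∀ c X, Via (i c) X (T c X)) (hj : ∀ c X, Via (j c) X (S c X))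
    (h1 : ∀ c X, S c (T c X) = X) (h2 : ∀ c X, T c (S c X) = X) :
    Acts ((List.range (2 * d)).map (lp i j)) (2 * d) (lt T S) where
  len := by simp
  ev := by omega
  via := by
    intro c hc X
    have h : ((List.range (2 * d)).map (lp i j)).getD c Code.zero = lp i j c := by
      rw [List.getD_eq_getElem?_getD, List.getElem?_map, List.getElem?_range hc]
      rfl
    rw [h]
    unfold lp lt
    have h3 : c / 2 < d := by omega
    rw [dif_pos h3, dif_pos h3]
    split_ifs with h4
    · exact hi _ X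
    · exact hj _ X
  inv := by
    intro c hc X
    have h3 : c / 2 < d := by omega
    rcases Nat.even_or_odd c with h | h
    · have e1 : c ^^^ 1 = c + 1 := Nat.xor_one_of_even h
      obtain ⟨k, hk⟩ := h
      have e2 : (c + 1) / 2 = c / 2 := by omega
      rw [e1]
      unfold lt
      rw [dif_pos (by omega), dif_pos h3, if_neg (by omega), if_pos (by omega)]
      have e3 : (⟨(c + 1) / 2, by omega⟩ : Fin d) = ⟨c / 2, h3⟩ := Fin.ext e2
      rw [e3]
      exact h1 _ X
    · have e1 : c ^^^ 1 = c - 1 := Nat.xor_one_of_odd h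
      obtain ⟨k, hk⟩ := h
      have e2 : (c - 1) / 2 = c / 2 := by omega
      rw [e1]
      unfold lt
      rw [dif_pos (by omega), dif_pos h3, if_pos (by omega), if_neg (by omega)]
      have e3 : (⟨(c - 1) / 2, by omega⟩ : Fin d) = ⟨c / 2, h3⟩ := Fin.ext e2
      rw [e3]
      exact h2 _ X

/-- The theorem for finitely many commuting computable bijections. -/
theorem comm_bij (h0 : S_PROG) (h1 : S_ACT) (h2 : S_PATCH) (h3 : S_CNT) (h4 : S_FULL)
    (h5 : S_COMM) (h6 : S_EQ) (h7 : S_STEP) (h8 : S_BACK) (h9 : S_INIT) (h10 : S_DEG)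
    (h11 : S_DEC) (h12 : S_INVC) (d : ℕ) (T : Fin d → R → R)
    (hb : ∀ c, Function.Bijective (T c)) (hT : ∀ c, ∃ i : Code, ∀ X, Via i X (T c X))
    (hc : ∀ c c' X, T c (T c' X) = T c' (T c X)) :
    ∃ e : ℕ, (∀ X, PostAt e X) ∧ ∀ c X, WEq e X (T c X) := by
  choose i hi using hT
  choose j hj using fun c => h12 (i c) (T c) (hb c) (hi c)
  let S : Fin d → R → R := fun c => (Equiv.ofBijective (T c) (hb c)).symm
  have s1 : ∀ c X, S c (T c X) = X := fun c X => (Equiv.ofBijective (T c) (hb c)).symm_apply_apply X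
  have s2 : ∀ c X, T c (S c X) = X := fun c X => (Equiv.ofBijective (T c) (hb c)).apply_symm_apply X
  have hS : ∀ c X, Via (j c) X (S c X) := by
    intro c X
    have h := hj c (S c X)
    rwa [s2] at h
  have hA := acts_lt hi hS s1 s2
  have cTS : ∀ c c' X, T c (S c' X) = S c' (T c X) := by
    intro c c' X
    apply (hb c').1
    rw [s2, ← hc, s2]
  have cSS : ∀ c c' X, S c (S c' X) = S c' (S c X) := by
    intro c c' X
    apply (hb c).1
    rw [s2, cTS, s2]
  obtain ⟨e, he⟩ := main_comm h0 h1 h2 h3 h4 h5 h6 h7 h8 h9 h10 h11 _ _ _ hA (by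
    intro c hc1 c' hc2 X
    unfold lt
    rw [dif_pos (by omega), dif_pos (by omega)]
    split_ifs
    · exact hc _ _ _
    · exact cTS _ _ _
    · exact (cTS _ _ _).symm
    · exact cSS _ _ _)
  refine ⟨e, fun X => (he X).1, fun c X => ?_⟩
  have h := (he X).2 (2 * c) (by have := c.2; omega)
  rwa [lt_even] at h

/-- the value of a word of letters in a group -/
theorem act_smul {G : Type} [Group G] [MulAction G R] (v : ℕ → G) (w : List ℕ) (X : R) :
    act (fun c X => v c • X) w X = (w.map v).prod • X := by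
  induction w with
  | nil => simp
  | cons c w ih => rw [act_cons, ih, List.map_cons, List.prod_cons, mul_smul]

/-- the letter of a number -/
def tl (d : ℕ) (c : ℕ) : Option (Fin d × Bool) :=
  if h : c / 2 < d then some (⟨c / 2, h⟩, decide (c % 2 = 0)) else none

/-- the number of a letter -/
def bk {d : ℕ} (y : Fin d × Bool) : ℕ := 2 * (y.1 : ℕ) + cond y.2 0 1

/-- the group element of a letter -/
def gl {G : Type} [Group G] {d : ℕ} (g : Fin d → G) (y : Fin d × Bool) : G :=
  cond y.2 (g y.1) (g y.1)⁻¹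

/-- the group element of a number -/
def gv {G : Type} [Group G] {d : ℕ} (g : Fin d → G) (c : ℕ) : G :=
  if h : c / 2 < d then (if c % 2 = 0 then g ⟨c / 2, h⟩ else (g ⟨c / 2, h⟩)⁻¹) else 1

theorem bk_lt {d : ℕ} (y : Fin d × Bool) : bk y < 2 * d := by
  obtain ⟨c, b⟩ := y
  have := c.2
  cases b <;> simp only [bk, cond_true, cond_false] <;> omega

section words

variable {G : Type} [Group G] {d : ℕ} (g : Fin d → G)

theorem gv_bk (y : Fin d × Bool) : gv g (bk y) = gl g y := by
  obtain ⟨c, b⟩ := y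
  have hc := c.2
  unfold gv gl bk
  cases b
  · have h1 : (2 * (c : ℕ) + 1) / 2 = c := by omega
    simp only [cond_false]
    rw [dif_pos (by rw [h1]; exact hc), if_neg (by omega)]
    congr 2
    exact Fin.ext h1
  · have h1 : (2 * (c : ℕ) + 0) / 2 = c := by omega
    simp only [cond_true]
    rw [dif_pos (by rw [h1]; exact hc), if_pos (by omega)]
    congr 1
    exact Fin.ext h1

theorem prod_tl (w : List ℕ) : ((w.filterMap (tl d)).map (gl g)).prod = (w.map (gv g)).prod := by
  induction w with
  | nil => rfl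
  | cons c w ih =>
    rw [List.map_cons, List.prod_cons]
    by_cases h : c / 2 < d
    · have h1 : tl d c = some (⟨c / 2, h⟩, decide (c % 2 = 0)) := dif_pos h
      rw [List.filterMap_cons_some h1, List.map_cons, List.prod_cons, ih]
      congr 1
      unfold gl gv
      rw [dif_pos h]
      by_cases h2 : c % 2 = 0 <;> simp [h2]
    · have h1 : tl d c = none := dif_neg h
      rw [List.filterMap_cons_none h1, ih]
      unfold gv
      rw [dif_neg h, one_mul]

theorem bal_eq (n : ℕ) : bal (gv g) (2 * d) n =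
    {x : G | ∃ w : List (Fin d × Bool), w.length ≤ n ∧ (w.map (gl g)).prod = x} := by
  ext x
  constructor
  · rintro ⟨w, hw, rfl⟩
    obtain ⟨-, h2⟩ := mem_WL.1 hw
    exact ⟨w.filterMap (tl d), (List.length_filterMap_le _ _).trans h2, prod_tl g w⟩
  · rintro ⟨w, hw, rfl⟩
    refine ⟨w.map bk, mem_WL.2 ⟨?_, by simpa using hw⟩, ?_⟩
    · intro c hc
      obtain ⟨y, -, rfl⟩ := List.mem_map.1 hc
      exact bk_lt y
    · rw [List.map_map]
      congr 1
      exact List.map_congr_left fun y _ => gv_bk g y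

theorem gv_inv {c : ℕ} (hc : c < 2 * d) : gv g (c ^^^ 1) = (gv g c)⁻¹ := by
  have h3 : c / 2 < d := by omega
  rcases Nat.even_or_odd c with h | h
  · have e1 : c ^^^ 1 = c + 1 := Nat.xor_one_of_even h
    obtain ⟨k, hk⟩ := h
    have e2 : (c + 1) / 2 = c / 2 := by omega
    rw [e1]
    unfold gv
    rw [dif_pos (by omega), dif_pos h3, if_neg (by omega), if_pos (by omega)]
    have e3 : (⟨(c + 1) / 2, by omega⟩ : Fin d) = ⟨c / 2, h3⟩ := Fin.ext e2
    rw [e3]
  · have e1 : c ^^^ 1 = c - 1 := Nat.xor_one_of_odd h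
    obtain ⟨k, hk⟩ := h
    have e2 : (c - 1) / 2 = c / 2 := by omega
    rw [e1]
    unfold gv
    rw [dif_pos (by omega), dif_pos h3, if_pos (by omega), if_neg (by omega)]
    have e3 : (⟨(c - 1) / 2, by omega⟩ : Fin d) = ⟨c / 2, h3⟩ := Fin.ext e2
    rw [e3, inv_inv]

theorem gv_mem (c : ℕ) : gv g c ∈ Subgroup.closure (Set.range g) := by
  unfold gv
  split_ifs with h h'
  · exact Subgroup.subset_closure ⟨_, rfl⟩
  · exact Subgroup.inv_mem _ (Subgroup.subset_closure ⟨_, rfl⟩)
  · exact Subgroup.one_mem _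

theorem prod_mem (w : List ℕ) : (w.map (gv g)).prod ∈ Subgroup.closure (Set.range g) := by
  refine Subgroup.list_prod_mem _ fun x hx => ?_
  obtain ⟨c, -, rfl⟩ := List.mem_map.1 hx
  exact gv_mem g c

open Classical in
theorem exists_wp (p : G → Prop)
    (hw : ComputablePred fun w : List (Fin d × Bool) => p (w.map (gl g)).prod) :
    ∃ a : Code, ∀ (w : List ℕ) (v : ℕ),
      v ∈ a.eval (encode w) ↔ v = if p (w.map (gv g)).prod then 1 else 0 := by
  obtain ⟨f, hf, hf'⟩ := ComputablePred.computable_iff.1 hw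
  have htl : Primrec (tl d) := by
    have h1 : Primrec fun n : ℕ => (List.finRange d)[n]? :=
      Primrec.list_getElem?.comp (Primrec.const _) Primrec.id
    have h2 : Primrec fun c : ℕ => ((List.finRange d)[c / 2]?).map fun i =>
        (i, decide (c % 2 = 0)) :=
      Primrec.option_map (h1.comp (Primrec.nat_div.comp Primrec.id (Primrec.const 2)))
        (Primrec.snd.pair ((Primrec.eq.comp (Primrec.nat_mod.comp Primrec.fst (Primrec.const 2))
          (Primrec.const 0)).decide)).to₂
    refine h2.of_eq fun c => ?_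
    unfold tl
    by_cases h : c / 2 < d
    · rw [dif_pos h, List.getElem?_eq_getElem (by simpa using h)]
      simp
    · rw [dif_neg h, List.getElem?_eq_none (by simpa using Nat.le_of_not_lt h)]
      rfl
  have hc : Computable fun w : List ℕ => cond (f (w.filterMap (tl d))) 1 0 :=
    Computable.cond (hf.comp (Primrec.listFilterMap Primrec.id (htl.comp Primrec.snd).to₂).to_comp)
      (Computable.const 1) (Computable.const 0)
  have hd : Computable fun n : ℕ => (decode (α := List ℕ) n).getD [] :=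
    Computable.option_getD Computable.decode (Computable.const [])
  obtain ⟨a, ha⟩ := Code.exists_code.1 (Partrec.nat_iff.1 ((hc.comp hd).partrec))
  refine ⟨a, fun w v => ?_⟩
  have h0 : a.eval (encode w) = Part.some (cond (f (w.filterMap (tl d))) 1 0) := by
    rw [ha]
    change Part.some (cond (f (((decode (encode w)).getD []).filterMap (tl d))) 1 0) = _
    rw [encodek]
    rfl
  rw [h0]
  have h1 : p (w.map (gv g)).prod ↔ f (w.filterMap (tl d)) = true := by
    rw [← prod_tl]
    exact iff_of_eq (congrFun hf' (w.filterMap (tl d)))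
  rw [Part.mem_some_iff]
  by_cases h : f (w.filterMap (tl d)) = true
  · rw [if_pos (h1.2 h), h, cond_true]
  · rw [if_neg (fun h' => h (h1.1 h')), Bool.eq_false_iff.2 h, cond_false]

end words

/-- The letters of a group. -/
theorem acts_gv (h12 : S_INVC) {G : Type} [Group G] [MulAction G R] {d : ℕ} (g : Fin d → G)
    (hg : ∀ c, ∃ i : Code, ∀ X : R, Via i X (g c • X)) :
    ∃ ps, Acts ps (2 * d) fun c X => gv g c • X := by
  choose i hi using hg
  choose j hj using fun c => h12 (i c) (fun X => g c • X) (MulAction.bijective (g c)) (hi c)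
  have hS : ∀ c X, Via (j c) X ((g c)⁻¹ • X) := by
    intro c X
    have h := hj c ((g c)⁻¹ • X)
    rwa [smul_inv_smul] at h
  have hA := acts_lt (T := fun c X => g c • X) (S := fun c X => (g c)⁻¹ • X) hi hS
    (fun c X => inv_smul_smul _ _) (fun c X => smul_inv_smul _ _)
  have hv : (lt (fun (c : Fin d) (X : R) => g c • X) fun c X => (g c)⁻¹ • X) =
      fun c X => gv g c • X := by
    funext c X
    unfold lt gv
    by_cases h : c / 2 < d
    · by_cases h' : c % 2 = 0 <;> simp [h, h']
    · simp [h]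
  rw [hv] at hA
  exact ⟨_, hA⟩

/-- The theorem for points with decidable normal stabilizers. -/
theorem gen_orb (h0 : S_PROG) (h1 : S_ACT) (h2 : S_PATCH) (h3 : S_CNT) (h4 : S_FULL)
    (h6 : S_EQ) (h7 : S_STEP) (h8 : S_BACK) (h9 : S_INIT) (h10 : S_DEG)
    (h12 : S_INVC) (h13 : S_GROW) (G : Type) [Group G] [MulAction G R] (d : ℕ) (g : Fin d → G)
    (hg : ∀ c, ∃ i : Code, ∀ X : R, Via i X (g c • X))
    (hC : ∃ C : ℕ, ∀ n, Nat.card {x : G | ∃ w : List (Fin d × Bool), w.length ≤ 2 * n ∧
      (w.map (gl g)).prod = x} ≤ C * Nat.card {x : G | ∃ w : List (Fin d × Bool), w.length ≤ n ∧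
      (w.map (gl g)).prod = x}) :
    ∃ e : ℕ, ∀ X : R,
      (∀ x ∈ Subgroup.closure (Set.range g), ∀ y ∈ Subgroup.closure (Set.range g),
        y • X = X → y • x • X = x • X) →
      (ComputablePred fun w : List (Fin d × Bool) => (w.map (gl g)).prod • X = X) →
      PostAt e X ∧ ∀ x ∈ Subgroup.closure (Set.range g), WEq e X (x • X) := by
  classical
  obtain ⟨ps, hA⟩ := acts_gv h12 g hg
  obtain ⟨K, hK⟩ := h13 G (gv g) (2 * d) (by omega) (fun c hc => gv_inv g hc) (by
    obtain ⟨C, hC⟩ := hC
    refine ⟨C, fun n => ?_⟩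
    rw [bal_eq, bal_eq]
    exact hC n)
  obtain ⟨e, he⟩ := main_gen h0 h1 h2 h3 h4 h6 h7 h8 h9 h10 _ _ _ K hA hK
  -- the hypothesis passes to the points of the orbit
  have hst : ∀ X : R, (∀ x ∈ Subgroup.closure (Set.range g),
      ∀ y ∈ Subgroup.closure (Set.range g), y • X = X → y • x • X = x • X) →
      ∀ x ∈ Subgroup.closure (Set.range g), ∀ y ∈ Subgroup.closure (Set.range g),
        (y • x • X = x • X ↔ y • X = X) := by
    intro X hX x hx y hy
    refine ⟨fun h => ?_, fun h => hX x hx y hy h⟩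
    -- `x⁻¹ * y * x` fixes `X`, so it fixes `x⁻¹ • X`
    have h' : (x⁻¹ * y * x) • X = X := by
      rw [mul_smul, mul_smul, h, inv_smul_smul]
    have h'' := hX x⁻¹ (Subgroup.inv_mem _ hx) (x⁻¹ * y * x) (Subgroup.mul_mem _
      (Subgroup.mul_mem _ (Subgroup.inv_mem _ hx) hy) hx) h'
    rw [← mul_smul, mul_assoc, mul_inv_cancel, mul_one, mul_smul] at h''
    exact smul_left_cancel _ h''
  have hP : ∀ X : R, (∀ x ∈ Subgroup.closure (Set.range g),
      ∀ y ∈ Subgroup.closure (Set.range g), y • X = X → y • x • X = x • X) →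
      (ComputablePred fun w : List (Fin d × Bool) => (w.map (gl g)).prod • X = X) →
      ∃ a : Code, Dec (2 * d) (fun c X => gv g c • X) a X := by
    intro X hX hw
    obtain ⟨a, ha⟩ := exists_wp g (fun x => x • X = X) hw
    refine ⟨a, fun w u _ _ v => ?_⟩
    rw [ha]
    have h : act (fun c X => gv g c • X) w (act (fun c X => gv g c • X) u X) =
        act (fun c X => gv g c • X) u X ↔ (w.map (gv g)).prod • X = X := by
      rw [act_smul, act_smul]
      exact hst X hX _ (prod_mem g u) _ (prod_mem g w)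
    simp only [h]
  refine ⟨e, fun X hX hw => ⟨(he X (hP X hX hw)).1, ?_⟩⟩
  intro x hx
  revert X
  induction hx using Subgroup.closure_induction with
  | mem y hy =>
    intro X hX hw
    obtain ⟨c, rfl⟩ := hy
    have h := (he X (hP X hX hw)).2 (2 * c) (by have := c.2; omega)
    have e1 : gv g (2 * (c : ℕ)) = g c := by
      have h := gv_bk g (c, true)
      simpa [bk, gl] using h
    rwa [e1] at h
  | one =>
    intro X hX hw
    rw [one_smul]
    exact WEq.refl _ _
  | mul y z hy hz ihy ihz =>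
    intro X hX hw
    rw [mul_smul]
    refine (ihz X hX hw).trans (ihy _ ?_ ?_)
    · intro x hx t ht h
      have h1 := (hst X hX z hz t ht).1 h
      have h2 := (hst X hX (x * z) (Subgroup.mul_mem _ hx hz) t ht).2 h1
      rwa [mul_smul] at h2
    · refine hw.of_eq fun w => ?_
      rw [show (w.map (gl g)).prod = ((w.map bk).map (gv g)).prod by
        rw [List.map_map]
        congr 1
        exact List.map_congr_left fun y _ => (gv_bk g y).symm]
      exact (hst X hX z hz _ (prod_mem g _)).symm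
  | inv y hy ihy =>
    intro X hX hw
    have h := ihy (y⁻¹ • X) ?_ ?_
    · rw [smul_inv_smul] at h
      exact h.symm
    · intro x hx t ht h
      have h1 := (hst X hX y⁻¹ (Subgroup.inv_mem _ hy) t ht).1 h
      have h2 := (hst X hX (x * y⁻¹) (Subgroup.mul_mem _ hx (Subgroup.inv_mem _ hy)) t ht).2 h1
      rwa [mul_smul] at h2
    · refine hw.of_eq fun w => ?_
      rw [show (w.map (gl g)).prod = ((w.map bk).map (gv g)).prod by
        rw [List.map_map]
        congr 1
        exact List.map_congr_left fun y _ => (gv_bk g y).symm]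
      exact (hst X hX y⁻¹ (Subgroup.inv_mem _ hy) _ (prod_mem g _)).symm

/-- The theorem for groups with the doubling property. -/
theorem free_orb (h0 : S_PROG) (h1 : S_ACT) (h2 : S_PATCH) (h3 : S_CNT) (h4 : S_FULL)
    (h6 : S_EQ) (h7 : S_STEP) (h8 : S_BACK) (h9 : S_INIT) (h10 : S_DEG)
    (h12 : S_INVC) (h13 : S_GROW) (G : Type) [Group G] [MulAction G R] (d : ℕ) (g : Fin d → G)
    (hg : ∀ c, ∃ i : Code, ∀ X : R, Via i X (g c • X))
    (hC : ∃ C : ℕ, ∀ n, Nat.card {x : G | ∃ w : List (Fin d × Bool), w.length ≤ 2 * n ∧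
      (w.map (gl g)).prod = x} ≤ C * Nat.card {x : G | ∃ w : List (Fin d × Bool), w.length ≤ n ∧
      (w.map (gl g)).prod = x})
    (hw : ComputablePred fun w : List (Fin d × Bool) => (w.map (gl g)).prod = 1) :
    ∃ e : ℕ, (∀ X, PostAt e X) ∧
      ∀ X : R, (∀ x ∈ Subgroup.closure (Set.range g), x • X = X → x = 1) →
        ∀ x ∈ Subgroup.closure (Set.range g), WEq e X (x • X) := by
  classical
  obtain ⟨ps, hA⟩ := acts_gv h12 g hg
  obtain ⟨K, hK⟩ := h13 G (gv g) (2 * d) (by omega) (fun c hc => gv_inv g hc) (by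
    obtain ⟨C, hC⟩ := hC
    refine ⟨C, fun n => ?_⟩
    rw [bal_eq, bal_eq]
    exact hC n)
  obtain ⟨a, ha⟩ := exists_wp g (fun x => x = 1) hw
  obtain ⟨e, he1, he2⟩ := main_fix h0 h1 h2 h3 h4 h6 h7 h8 h9 h10 _ _ _ K hA hK a
  have hD : ∀ X : R, (∀ x ∈ Subgroup.closure (Set.range g), x • X = X → x = 1) →
      Dec (2 * d) (fun c X => gv g c • X) a X := by
    intro X hX w u _ _ v
    rw [ha]
    have h : act (fun c X => gv g c • X) w (act (fun c X => gv g c • X) u X) =
        act (fun c X => gv g c • X) u X ↔ (w.map (gv g)).prod = 1 := by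
      rw [act_smul, act_smul]
      constructor
      · intro h
        have h' := hX ((u.map (gv g)).prod⁻¹ * (w.map (gv g)).prod * (u.map (gv g)).prod)
          (Subgroup.mul_mem _ (Subgroup.mul_mem _ (Subgroup.inv_mem _ (prod_mem g u))
            (prod_mem g w)) (prod_mem g u)) (by
          rw [mul_smul, mul_smul, h, inv_smul_smul])
        have h'' : (w.map (gv g)).prod * (u.map (gv g)).prod = (u.map (gv g)).prod := by
          rw [mul_assoc] at h'
          exact (inv_mul_eq_one.1 h').symm
        exact mul_eq_right.1 h''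
      · intro h
        rw [h, one_smul]
    simp only [h]
  refine ⟨e, he1, ?_⟩
  have hfree : ∀ X : R, (∀ x ∈ Subgroup.closure (Set.range g), x • X = X → x = 1) →
      ∀ y ∈ Subgroup.closure (Set.range g),
        ∀ x ∈ Subgroup.closure (Set.range g), x • y • X = y • X → x = 1 := by
    intro X hX y hy x hx h
    have h' := hX (y⁻¹ * x * y) (Subgroup.mul_mem _ (Subgroup.mul_mem _ (Subgroup.inv_mem _ hy) hx)
      hy) (by rw [mul_smul, mul_smul, h, inv_smul_smul])
    have h'' : x * y = y := by
      rw [mul_assoc] at h'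
      exact (inv_mul_eq_one.1 h').symm
    exact mul_eq_right.1 h''
  intro X hX x hx
  revert X
  induction hx using Subgroup.closure_induction with
  | mem y hy =>
    intro X hX
    obtain ⟨c, rfl⟩ := hy
    have h := he2 X (hD X hX) (2 * c) (by have := c.2; omega)
    have e1 : gv g (2 * (c : ℕ)) = g c := by
      have h := gv_bk g (c, true)
      simpa [bk, gl] using h
    rwa [e1] at h
  | one =>
    intro X hX
    rw [one_smul]
    exact WEq.refl _ _
  | mul y z hy hz ihy ihz =>
    intro X hX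
    rw [mul_smul]
    exact (ihz X hX).trans (ihy _ (hfree X hX z hz))
  | inv y hy ihy =>
    intro X hX
    have h := ihy (y⁻¹ • X) (hfree X hX _ (Subgroup.inv_mem _ hy))
    rw [smul_inv_smul] at h
    exact h.symm

end Pool.Agent.Q216.ZD
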