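import Pool.Agent.TH769.FB.Pri
import Pool.Agent.TH769.TP.Uni

set_option autoImplicit false

/-!
# Project ZD (MP_57825d_lc): Post solutions which are invariant under commuting homeomorphisms

`T 0, T 1, ..., T (L - 1)` are computable maps of the Cantor space into itself, `T (c ^^^ 1)` is
the inverse of `T c`.  Words are lists of letters; `act T w X` applies the letters of `w`, the last
one first.

Markers: for each radius `r` a maximal set `Mk L T r` of points such that different points of the
set are never at distance `≤ r`; it is found greedily, in the order of the colours `col L T r X`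
(shortest initial segment of `X` which is different from the initial segments of the points
`≠ X` at distance `≤ r`).  `sn L T n` moves a point to a marker of level `n` in `n` steps;
`Feq` says that two points are moved to the same point at some level.  If balls have polynomial
growth (`Packed`) each orbit has finitely many `Feq`-classes, and a finite set `A` which meets all
of them (`Full`) has the property that `sn L T n '' A` does not depend on `A`, for large `n`.
-/

namespace Pool.Agent.Q216.ZD

open Encodable Pool.Agent.Helper227 Pool.Agent.H548R2.Post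
open Nat.Partrec (Code)
open Pool.Agent.TH769.TP (Via lab Unb)

/-- the Cantor space -/
abbrev R : Type := ℕ → Bool

/-! ## Words -/

/-- the value of a word of letters at `X` -/
def act (T : ℕ → R → R) (w : List ℕ) (X : R) : R := w.foldr (fun c Y => T c Y) X

/-- all letters are less than `L` -/
def Wd (L : ℕ) (w : List ℕ) : Prop := ∀ c ∈ w, c < L

/-- the inverse word -/
def iv (w : List ℕ) : List ℕ := (w.map fun c => c ^^^ 1).reverse

/-- the words of length at most `r` -/
def WL (L : ℕ) : ℕ → List (List ℕ)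
  | 0 => [[]]
  | r + 1 => [] :: (WL L r).flatMap fun w => (List.range L).map fun c => c :: w

/-- the letters `c < L` act by the programs `ps`, and `c ^^^ 1` is the inverse letter of `c` -/
structure Acts (ps : List Code) (L : ℕ) (T : ℕ → R → R) : Prop where
  len : ps.length = L
  ev : L % 2 = 0
  via : ∀ c < L, ∀ X, Via (ps.getD c Code.zero) X (T c X)
  inv : ∀ c < L, ∀ X, T (c ^^^ 1) (T c X) = X

/-! ## Markers -/

/-- `Z` is at distance at most `r` from `Y` -/
def near (L : ℕ) (T : ℕ → R → R) (r : ℕ) (Y Z : R) : Prop := ∃ w ∈ WL L r, act T w Y = Z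

/-- the length of the colour -/
noncomputable def len (L : ℕ) (T : ℕ → R → R) (r : ℕ) (Y : R) : ℕ :=
  sInf {l | ∀ w ∈ WL L r, act T w Y ≠ Y → pre (act T w Y) l ≠ pre Y l}

/-- the colour -/
noncomputable def col (L : ℕ) (T : ℕ → R → R) (r : ℕ) (Y : R) : ℕ := encode (pre Y (len L T r Y))

/-- the markers with colour less than `k` -/
def MkN (L : ℕ) (T : ℕ → R → R) (r : ℕ) : ℕ → R → Prop
  | 0 => fun _ => False
  | k + 1 => fun Y => MkN L T r k Y ∨ (col L T r Y = k ∧ ∀ Z, near L T r Y Z → ¬ MkN L T r k Z)

/-- the markers of radius `r` -/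
def Mk (L : ℕ) (T : ℕ → R → R) (r : ℕ) (Y : R) : Prop := MkN L T r (col L T r Y + 1) Y

open Classical in
/-- the first word of length at most `r` which leads from `Y` to a marker -/
noncomputable def wsel (L : ℕ) (T : ℕ → R → R) (r : ℕ) (Y : R) : List ℕ :=
  ((WL L r).find? fun w => decide (Mk L T r (act T w Y))).getD []

/-- the marker selected by `Y` -/
noncomputable def sel (L : ℕ) (T : ℕ → R → R) (r : ℕ) (Y : R) : R := act T (wsel L T r Y) Y

/-- the marker of level `n` of `Y` -/
noncomputable def sn (L : ℕ) (T : ℕ → R → R) : ℕ → R → R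
  | 0 => fun Y => Y
  | n + 1 => fun Y => sel L T (2 ^ n) (sn L T n Y)

/-- the word which leads from `Y` to its marker of level `n` -/
noncomputable def wn (L : ℕ) (T : ℕ → R → R) : ℕ → R → List ℕ
  | 0 => fun _ => []
  | n + 1 => fun Y => wsel L T (2 ^ n) (sn L T n Y) ++ wn L T n Y

/-- `Y` and `Z` have the same marker at some level -/
def Feq (L : ℕ) (T : ℕ → R → R) (Y Z : R) : Prop := ∃ n, sn L T n Y = sn L T n Z

/-- uniformly polynomial growth of the orbits: among `K + 1` points at distance at most `4 * 2 ^ n`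
from a given point there are two at distance at most `2 ^ n` -/
def Packed (L : ℕ) (T : ℕ → R → R) (K : ℕ) : Prop :=
  ∀ (X : R) (n : ℕ) (g : Fin (K + 1) → List ℕ), (∀ i, g i ∈ WL L (4 * 2 ^ n)) →
    ∃ i j, i ≠ j ∧ near L T (2 ^ n) (act T (g i) X) (act T (g j) X)

open Classical in
/-- the program `a` decides whether a word fixes `Y`, for all points `Y` of the orbit of `X` -/
def Dec (L : ℕ) (T : ℕ → R → R) (a : Code) (X : R) : Prop :=
  ∀ w u, Wd L w → Wd L u → ∀ v : ℕ,
    v ∈ a.eval (encode w) ↔ v = if act T w (act T u X) = act T u X then 1 else 0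

/-- the point `Y` is in the orbit of `X` -/
def InOrb (L : ℕ) (T : ℕ → R → R) (X Y : R) : Prop := ∃ u, Wd L u ∧ act T u X = Y

/-- the ball of radius `b` -/
def Ball (L : ℕ) (T : ℕ → R → R) (b : ℕ) (X : R) : Set R := {Y | near L T b X Y}

/-- every point of the orbit of `X` is equivalent to a member of `A` -/
def Full (L : ℕ) (T : ℕ → R → R) (X : R) (A : Set R) : Prop :=
  ∀ u, Wd L u → ∃ Y ∈ A, Feq L T (act T u X) Y

/-! ## Semi-decidable relations -/

/-- uniformly semi-decidable relations between an oracle and a parameter -/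
def US {α : Type} [Primcodable α] (P : R → α → Prop) : Prop :=
  ∃ E : List Bool × α → Prop, S1 E ∧ (∀ σ τ a, σ <+: τ → E (σ, a) → E (τ, a)) ∧
    ∀ X a, P X a ↔ ∃ s, E (pre X s, a)

/-- counters: `Q n σ k` says that the `n`-th counter is at least `k`; isotone in `n` -/
structure CntI (Q : ℕ → List Bool → ℕ → Prop) : Prop where
  mono : ∀ n σ τ k, σ <+: τ → Q n σ k → Q n τ k
  iso : ∀ n σ k, Q n σ k → Q (n + 1) σ k
  down : ∀ n σ k k', k' ≤ k → Q n σ k → Q n σ k'

/-! ## Trees of initial segments -/

/-- the string with number `m` -/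
def sg (m : ℕ) : List Bool := (decode (α := List Bool) m).getD []

open Classical in
/-- the set of the initial segments of the members of `A` -/
noncomputable def Zt (A : Set R) : R := fun m => decide (∃ Y ∈ A, pre Y (sg m).length = sg m)

/-! ## The statements -/

/-- A functional whose graph is semi-decidable is given by a program, uniformly in a parameter. -/
def S_PROG : Prop := ∀ (α : Type) [Primcodable α] (P : R → α × ℕ × Bool → Prop), US P →
  ∃ I : α → Code, Primrec I ∧ ∀ a X Y, (∀ m b, P X (a, m, b) ↔ Y m = b) → Via (I a) X Y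

/-- The letters act by functionals with semi-decidable graphs. -/
def S_ACT : Prop := ∀ (ps : List Code) (L : ℕ) (T : ℕ → R → R), Acts ps L T →
  US fun X (x : List ℕ × ℕ × Bool) => Wd L x.1 ∧ act T x.1 X x.2.1 = x.2.2

/-- Patching: if `q` is the least hypothesis whose counter is unbounded then the new operator has
at `X` the degree of the old one at `Z`, where `Z` is given by the program `p q`. -/
def S_PATCH : Prop := ∀ (e : ℕ) (p : ℕ → Code) (Q : ℕ → List Bool → ℕ → Prop), Primrec p →
  (PrimrecPred fun x : ℕ × List Bool × ℕ => Q x.1 x.2.1 x.2.2) → CntI Q →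
  ∃ e' : ℕ, ∀ (X : R) (q : ℕ) (Z : R), Unb (Q (q + 1)) X → ¬ Unb (Q q) X → Via (p q) X Z →
    TLe X Z → TLe Z (chr (WE Z e)) →
    TLe (chr (WE X e')) (chr (WE Z e)) ∧ TLe (chr (WE Z e)) (chr (WE X e'))

/-- Counters for hypotheses of the form: for all `c` something semi-decidable happens. -/
def S_CNT : Prop := ∀ P : R → ℕ × ℕ → Prop, US P → ∃ Q : ℕ → List Bool → ℕ → Prop,
  (PrimrecPred fun x : ℕ × List Bool × ℕ => Q x.1 x.2.1 x.2.2) ∧ CntI Q ∧
    ∀ (X : R) (n : ℕ), Unb (Q n) X ↔ ∃ q < n, ∀ c, P X (q, c)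

/-- If the orbits have uniformly polynomial growth then some ball meets all classes. -/
def S_FULL : Prop := ∀ (ps : List Code) (L : ℕ) (T : ℕ → R → R) (K : ℕ), Acts ps L T →
  Packed L T K → ∀ X : R, ∃ b, Full L T X (Ball L T b X)

/-- Commuting homeomorphisms have orbits of uniformly polynomial growth. -/
def S_COMM : Prop := ∀ (ps : List Code) (L : ℕ) (T : ℕ → R → R), Acts ps L T →
  (∀ c < L, ∀ c' < L, ∀ X, T c (T c' X) = T c' (T c X)) → ∃ K, Packed L T K

/-- The stabilizers of commuting homeomorphisms are computable. -/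
def S_DEC : Prop := ∀ (ps : List Code) (L : ℕ) (T : ℕ → R → R), Acts ps L T →
  (∀ c < L, ∀ c' < L, ∀ X, T c (T c' X) = T c' (T c X)) → ∀ X : R, ∃ a : Code, Dec L T a X

/-- The selection of markers is semi-decidable with the help of a program which decides the
stabilizers. -/
def S_SEL : Prop := ∀ (ps : List Code) (L : ℕ) (T : ℕ → R → R), Acts ps L T →
  ∃ P : R → Code × ℕ × List ℕ × List ℕ → Prop, US P ∧ ∀ (a : Code) (Y : R), Dec L T a Y →
    ∀ (r : ℕ) (u w : List ℕ), Wd L u → (P Y (a, r, u, w) ↔ w = wsel L T r (act T u Y))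

/-- The equivalence of `act T u X` with a member of the ball of radius `b` is semi-decidable. -/
def S_EQ : Prop := ∀ (ps : List Code) (L : ℕ) (T : ℕ → R → R), Acts ps L T →
  ∃ P : R → Code × ℕ × List ℕ → Prop, US P ∧ ∀ (a : Code) (Y : R), Dec L T a Y →
    ∀ (b : ℕ) (u : List ℕ), Wd L u → (P Y (a, b, u) ↔ ∃ Z ∈ Ball L T b Y, Feq L T (act T u Y) Z)

/-- A program for one step. -/
def S_STEP : Prop := ∀ (ps : List Code) (L : ℕ) (T : ℕ → R → R), Acts ps L T →
  ∃ I : Code → Code, Primrec I ∧ ∀ (a : Code) (X : R), Dec L T a X → ∀ (n : ℕ) (A : Set R),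
    A.Finite → A.Nonempty → (∀ Y ∈ A, InOrb L T X Y) →
    Via (I a) (lab n (Zt A)) (lab (n + 1) (Zt (sel L T (2 ^ n) '' A)))

/-- Total programs for the way back. -/
def S_BACK : Prop := ∀ (ps : List Code) (L : ℕ) (T : ℕ → R → R), Acts ps L T →
  ∃ k : ℕ → Code, Computable k ∧ (∀ c X, ∃ Y, Via (k c) X Y) ∧
    ∀ (n : ℕ) (X : R) (A B : Set R), A.Finite → A.Nonempty → (∀ Y ∈ A, InOrb L T X Y) →
      B.Finite → B.Nonempty → (∀ Y ∈ B, InOrb L T X Y) →
      ∃ c, Via (k c) (lab (n + 1) (Zt B)) (lab n (Zt A))

/-- Programs for the start. -/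
def S_INIT : Prop := ∀ (ps : List Code) (L : ℕ) (T : ℕ → R → R), Acts ps L T →
  ∀ I : Code → Code, Primrec I → ∃ J : ℕ → Code, Primrec J ∧ ∀ (b : ℕ) (a : Code) (X : R),
    Via (J b) (lab (encode a) X) (lab (encode (I a)) (lab 0 (Zt (Ball L T b X))))

/-- The tree of a finite set of points of the orbit of `X` has the degree of `X`. -/
def S_DEG : Prop := ∀ (ps : List Code) (L : ℕ) (T : ℕ → R → R), Acts ps L T →
  ∀ (X : R) (A : Set R), A.Finite → A.Nonempty → (∀ Y ∈ A, InOrb L T X Y) →
    TLe X (Zt A) ∧ TLe (Zt A) X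

end Pool.Agent.Q216.ZD
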